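import Pool.Agent.Helper68.QC.Int
import Pool.Agent.Helper69.QC.St

/-!
# Project QD (MP_d112a4_gt), PART E: the energy `E` and its strictness.  Definitions.

Model: a Fuchsian group `s : Γ →* SL(2,ℂ)` preserving the unit disc `D`.  The end `Y` is `D` (its
complex structure is deformed by `κ`), the end `X` is the outside `Dx` of the closed disc (with `∞`), it
is deformed by `t * nuT h`, where `h` is an abelian integral on `D` (reflected to the outside).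
-/

open MeasureTheory Set Filter Topology Complex
open scoped ContDiff ComplexConjugate ENNReal

namespace Pool.Agent.Helper61.QE

open Pool.Agent.Helper68.QC

/-- The unit disc. -/
abbrev D : Set ℂ := Metric.ball (0 : ℂ) 1

/-- The outside of the closed unit disc. -/
abbrev Dx : Set ℂ := {z : ℂ | 1 < ‖z‖}

/-- Reflection in the unit circle. -/
noncomputable def rf (z : ℂ) : ℂ := 1 / conj z

/-- `A ∈ SU(1,1)`. -/
def SU (A : SL) : Prop := A 1 1 = conj (A 0 0) ∧ A 1 0 = conj (A 0 1)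

/-- `A` conjugated by `z ↦ 1/z`. -/
def jj (A : SL) : SL :=
  ⟨!![A 1 1, A 1 0; A 0 1, A 0 0], by
    have h := A.det_coe
    rw [Matrix.det_fin_two] at h
    rw [Matrix.det_fin_two_of]
    linear_combination h⟩

/-- `jj` as a homomorphism. -/
def jjH : SL →* SL where
  toFun := jj
  map_one' := by
    ext i j
    fin_cases i <;> fin_cases j <;> simp [jj]
  map_mul' A B := by
    ext i j
    rw [Matrix.SpecialLinearGroup.coe_mul]
    fin_cases i <;> fin_cases j <;> simp [jj, Matrix.mul_apply, Fin.sum_univ_two] <;> ring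

/-- The group seen from infinity. -/
def js {Γ : Type} [Group Γ] (s : Γ →* SL) : Γ →* SL := jjH.comp s

/-- The pole of a Möbius map. -/
noncomputable def pl (B : SL) : ℂ := - B 1 1 / B 1 0

/-- The image of infinity under a Möbius map. -/
noncomputable def cn (B : SL) : ℂ := B 0 0 / B 1 0

/-- Cocompact Fuchsian group acting freely on the unit disc. -/
structure Fu {Γ : Type} [Group Γ] (s : Γ →* SL) : Prop where
  su : ∀ γ, SU (s γ)
  disc : ∀ r < 1, {γ | ‖mob (s γ) 0‖ ≤ r}.Finite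
  free : ∀ γ, γ ≠ 1 → ∀ z ∈ D, mob (s γ) z ≠ z
  coc : ∃ r < 1, ∀ z ∈ D, ∃ γ, ‖mob (s γ) z‖ ≤ r

/-- Measurable relatively compact fundamental domain. -/
structure FD {Γ : Type} [Group Γ] (s : Γ →* SL) (F : Set ℂ) : Prop where
  meas : MeasurableSet F
  cpt : ∃ r < 1, ∀ z ∈ F, ‖z‖ ≤ r
  cov : ∀ z ∈ D, ∃ γ, mob (s γ) z ∈ F
  uni : ∀ z ∈ F, ∀ γ, mob (s γ) z ∈ F → γ = 1

/-- Abelian integral (primitive of an invariant holomorphic differential). -/
structure Ab {Γ : Type} [Group Γ] (s : Γ →* SL) (h : ℂ → ℂ) : Prop where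
  hol : DifferentiableOn ℂ h D
  eqv : ∀ γ, ∃ c, ∀ z ∈ D, h (mob (s γ) z) = h z + c
  ne : ∃ z ∈ D, deriv h z ≠ 0

/-- The reflected coefficient. -/
noncomputable def sy (μ : ℂ → ℂ) (z : ℂ) : ℂ := conj (μ (rf z)) * (z ^ 2 / conj z ^ 2)

open Classical in
/-- The coefficient `conj h' / h'` of `h`, reflected to the outside. -/
noncomputable def nuT (h : ℂ → ℂ) (z : ℂ) : ℂ :=
  if 1 < ‖z‖ then deriv h (rf z) / conj (deriv h (rf z)) * (z ^ 2 / conj z ^ 2) else 0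

/-- The coefficient with parameter `t` at the end `X` and `κ` at the end `Y`. -/
noncomputable def muT (κ h : ℂ → ℂ) (t z : ℂ) : ℂ := κ z + t * nuT h z

/-- The symmetric coefficient for the end `X` alone. -/
noncomputable def syX (h : ℂ → ℂ) (t z : ℂ) : ℂ := t * nuT h z + sy (fun w => t * nuT h w) z

/-- The symmetric coefficient for the end `Y` alone. -/
noncomputable def syY (κ : ℂ → ℂ) (z : ℂ) : ℂ := κ z + sy κ z

/-- Invariant coefficients on `D`. -/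
structure Kap {Γ : Type} [Group Γ] (s : Γ →* SL) (k : ℝ) (κ : ℂ → ℂ) : Prop where
  bel : Bel k κ
  out : ∀ z, 1 ≤ ‖z‖ → κ z = 0
  inv : ∀ γ, InvB (s γ) κ

/-- The energy `∬_{(Ω_Y × Ω_X)/Γ} |ξ - a|⁻⁴`. -/
noncomputable def En (F : Set ℂ) (μ : ℂ → ℂ) : ℝ≥0∞ :=
  ∫⁻ a in nq μ '' F, ∫⁻ ξ in nq μ '' Dx, ENNReal.ofReal (‖ξ - a‖⁻¹ ^ 4)

/-- The energy along the disc. -/
noncomputable def Et (F : Set ℂ) (κ h : ℂ → ℂ) (t : ℂ) : ℝ := (En F (muT κ h t)).toReal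

/-- Grunsky kernel. -/
noncomputable def dKern (f : ℂ → ℂ) (a b : ℂ) : ℂ :=
  deriv f a * deriv f b / (f a - f b) ^ 2 - 1 / (a - b) ^ 2

/-- Invariant partition function. -/
structure Chi {Γ : Type} [Group Γ] (s : Γ →* SL) (χ : ℂ → ℝ) : Prop where
  smooth : ContDiff ℝ ∞ χ
  cpt : HasCompactSupport χ
  sub : tsupport χ ⊆ D
  nn : ∀ z, 0 ≤ χ z
  sum : ∀ z ∈ D, ∑' γ : Γ, χ (mob (s γ) z) = 1

/-- `G` seen from infinity. -/
noncomputable def PG (G : ℂ → ℂ) (u : ℂ) : ℂ := (G u⁻¹)⁻¹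

/-- Homeomorphisms of the plane which are conformal outside the closed disc, normalised. -/
structure Gd (M : ℝ) (G : ℂ ≃ₜ ℂ) : Prop where
  zero : G 0 = 0
  one : ∃ q, ‖q‖ ≤ 1 ∧ G q = 1
  le : ∀ z, ‖z‖ ≤ 1 → ‖G z‖ ≤ M
  hol : DifferentiableOn ℂ G Dx

/-- The sequence of the compactness argument. -/
structure Sq {Γ : Type} [Group Γ] (s : Γ →* SL) (F : Set ℂ) (h : ℂ → ℂ) (t0 : ℂ)
    (G : ℕ → (ℂ ≃ₜ ℂ)) (N : ℕ → ℂ → ℂ) (R R' : ℕ → Γ →* SL) : Prop where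
  gd : ∀ n, Gd 1 (G n)
  gint : ∀ n γ, Intw (s γ) (R n γ) (G n)
  nbel : ∀ n, Bel ‖t0‖ (N n)
  nout : ∀ n, ∀ᵐ z ∂(volume.restrict (G n '' D)), N n z = 0
  pint : ∀ n γ, Intw (s γ) (R' n γ) (fun z => nq (N n) (G n z))
  phol : ∀ n, DifferentiableOn ℂ (fun w => nq (N n) (G n ((nq (syX h t0)).symm w))) Dx
  small : ∀ n, ∫⁻ a in G n '' F, ∫⁻ b in G n '' D,
    ENNReal.ofReal (‖dKern (nq (N n)) a b‖ ^ 2) ≤
      ENNReal.ofReal (1 / ((n : ℝ) + 1)) * volume (G n '' D) ^ 2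

/-- The points where the volumes of `G n '' D` concentrate (along an ultrafilter). -/
def Sset (U : Ultrafilter ℕ) (G : ℕ → (ℂ ≃ₜ ℂ)) : Set ℂ :=
  {x | ∀ ε > 0, ∃ c : ℝ≥0∞, 0 < c ∧ c ≠ ⊤ ∧
    ∀ᶠ n in (U : Filter ℕ), c * volume (G n '' D) ≤ volume (G n '' D ∩ Metric.ball x ε)}

/-- The limit of the sequence along an ultrafilter. -/
structure Lm {Γ : Type} [Group Γ] (s : Γ →* SL) (h : ℂ → ℂ) (t0 : ℂ)
    (G : ℕ → (ℂ ≃ₜ ℂ)) (N : ℕ → ℂ → ℂ) (R R' : ℕ → Γ →* SL) (U : Ultrafilter ℕ)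
    (P : ℂ → ℂ) (ν : ℂ → ℂ) (Ri Ri' : Γ →* SL) : Prop where
  le : (U : Filter ℕ) ≤ atTop
  pcon : TendstoLocallyUniformlyOn (fun n => PG (G n)) P (U : Filter ℕ) D
  phol : DifferentiableOn ℂ P D
  pinj : InjOn P D
  pzero : P 0 = 0
  nbel : Bel ‖t0‖ ν
  ncon : ∀ R : ℝ, TendstoUniformlyOn (fun n => (nq (N n) : ℂ → ℂ)) (nq ν) (U : Filter ℕ)
    (Metric.closedBall 0 R)
  rcon : ∀ γ i j, Tendsto (fun n => R n γ i j) (U : Filter ℕ) (𝓝 (Ri γ i j))
  rcon' : ∀ γ i j, Tendsto (fun n => R' n γ i j) (U : Filter ℕ) (𝓝 (Ri' γ i j))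
  qhol : DifferentiableOn ℂ
    (fun v => PG (nq ν) (P (conj ((nq (syX h t0)).symm (conj v))))) D

end Pool.Agent.Helper61.QE
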