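import Pool.Agent.Helper61.QE.St5

/-!
# Project QD, PART E, statements, file 6: form of the results used by the other parts
-/

open MeasureTheory Set Filter Topology Complex
open scoped ContDiff ComplexConjugate ENNReal

namespace Pool.Agent.Helper61.QE

open Pool.Agent.Helper68.QC

/-- RPG (about 100 lines)
(The deformed group, general coefficient.)  `StREP` for `μ' τ = fun z => τ * μ z` on the disc of centre `0` and
radius `r' > 1` with `k r' < 1` (`0 ≤ k` because `‖μ 0‖ ≤ k`): `Bel (k r')`, `InvB` (linear), holomorphic in `τ`;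
`μ' 0 = 0` and `nq 0` is the identity (`StUNI` with `w = Homeomorph.refl ℂ`, a `Sol` of `0`: weak
derivatives `1` and `0`), `Intw (s γ) (s γ) id`; take `ρ = ρ' 1` (`μ' 1 = μ`).  (Compare the proof of RPH.)
Hypotheses: hEX hUNI hREP. -/
def StRPG : Prop := ∀ (Γ : Type) [Group Γ] (s : Γ →* SL) (μ : ℂ → ℂ) (k : ℝ), k < 1 →
  Bel k μ → (∀ γ, InvB (s γ) μ) → ∃ ρ : Γ →* SL, ∀ γ, Intw (s γ) (ρ γ) (nq μ)

/-- EFD (about 20 lines)
(Independence of the fundamental domain.)  hRPG and hEFI.
Hypotheses: hRPG hEFI. -/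
def StEFD : Prop := ∀ (Γ : Type) [Group Γ] (s : Γ →* SL) (F F' : Set ℂ) (μ : ℂ → ℂ) (k : ℝ),
  Fu s → FD s F → FD s F' → k < 1 → Bel k μ → (∀ γ, InvB (s γ) μ) → En F μ = En F' μ

/-- The output of part E. -/
structure OutE : Prop where
  fdx : StFDX
  str : StSTR
  maj : StPE1
  bnd : StBND
  efd : StEFD
  fuc : StFUC
  ygr : StYGR

end Pool.Agent.Helper61.QE
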