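import Pool.Agent.Helper68.QCA.Main
import Pool.Agent.Helper61.QE.St6
import Pool.Agent.Helper10.QE.PEQP
import Pool.Agent.Helper11.QE.PEFI
import Pool.Agent.Helper11.QE.PEQI
import Pool.Agent.Helper11.QE.PPE1
import Pool.Agent.Helper15.QE.PNGF
import Pool.Agent.Helper2.QE.PCVH
import Pool.Agent.Helper21.QE.PCOE
import Pool.Agent.Helper22.QE.PATZ
import Pool.Agent.Helper24.QE.PHAT
import Pool.Agent.Helper24.QE.PSIN
import Pool.Agent.Helper26.QE.PBDS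
import Pool.Agent.Helper26.QE.PHDV
import Pool.Agent.Helper26.QE.PULM
import Pool.Agent.Helper3.QE.PMB1
import Pool.Agent.Helper30.QE.PFUX
import Pool.Agent.Helper31.QE.PCNT
import Pool.Agent.Helper31.QE.PIND
import Pool.Agent.Helper33.QE.PNSW
import Pool.Agent.Helper34.QE.PUNF
import Pool.Agent.Helper36.QE.PATR
import Pool.Agent.Helper36.QE.PRPH
import Pool.Agent.Helper36.QE.PSMA
import Pool.Agent.Helper36.QE.PSNX
import Pool.Agent.Helper38.QE.PEDD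
import Pool.Agent.Helper38.QE.PSWP
import Pool.Agent.Helper39.QE.PBND
import Pool.Agent.Helper39.QE.PTRF
import Pool.Agent.Helper40.QE.PHOT
import Pool.Agent.Helper40.QE.PPGH
import Pool.Agent.Helper41.QE.PFUC
import Pool.Agent.Helper41.QE.PSS2
import Pool.Agent.Helper44.QE.PINT
import Pool.Agent.Helper47.QE.PCTR
import Pool.Agent.Helper5.QE.PPLM
import Pool.Agent.Helper52.QE.PMBF
import Pool.Agent.Helper52.QE.POUT
import Pool.Agent.Helper6.QE.PAB1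
import Pool.Agent.Helper62.QE.PSEP
import Pool.Agent.Helper64.QE.PSNE
import Pool.Agent.Helper64.QE.PTR3
import Pool.Agent.Helper66.QE.PEUP
import Pool.Agent.Helper66.QE.PGRW
import Pool.Agent.Helper66.QE.PSUM
import Pool.Agent.Helper7.QE.PAB2
import Pool.Agent.Helper7.QE.PFIN
import Pool.Agent.Helper7.QE.PLIM
import Pool.Agent.Helper7.QE.PSTR
import Pool.Agent.Helper70.QE.PQUA
import Pool.Agent.Helper72.QE.PUNW
import Pool.Agent.Helper74.QE.PENT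
import Pool.Agent.Helper75.QE.PRIE
import Pool.Agent.Helper78.QE.PATC
import Pool.Agent.Helper78.QE.PFDX
import Pool.Agent.Helper78.QE.PRPG
import Pool.Agent.Helper79.QE.PSUB
import Pool.Agent.Helper8.QE.PYGR
import Pool.Agent.Helper80.QE.PPUX
import Pool.Agent.Helper81.QE.PCNJ
import Pool.Agent.Helper82.QE.PEFD
import Pool.Agent.Helper82.QE.PHUR
import Pool.Agent.Helper84.QE.PEID
import Pool.Agent.Helper87.QE.PGDQ
import Pool.Agent.Helper93.QE.PSQ1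
import Pool.Agent.Helper97.QE.PAT
import Pool.Agent.Helper99.QE.PTUP

/-!
# Project QD, PART E: assembly.  Every theorem `e_X : StX` without hypotheses.
-/

namespace Pool.Agent.Helper61.QE

theorem e_SUB : StSUB := Pool.Agent.Helper79.QE.pSUB
theorem e_PGH : StPGH := Pool.Agent.Helper40.QE.pPGH
theorem e_INT : StINT := Pool.Agent.Helper44.QE.pINT
theorem e_GRW : StGRW := Pool.Agent.Helper66.QE.pGRW e_PGH
theorem e_FUX : StFUX := Pool.Agent.Helper30.QE.pFUX e_SUB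
theorem e_MBF : StMBF := Pool.Agent.Helper52.QE.pMBF e_SUB
theorem e_ENT : StENT := Pool.Agent.Helper74.QE.pENT e_SUB e_GRW e_MBF
theorem e_SUM : StSUM := Pool.Agent.Helper66.QE.pSUM e_SUB e_GRW e_FUX e_MBF e_ENT
theorem e_IND : StIND := Pool.Agent.Helper31.QE.pIND e_SUB e_FUX
theorem e_CNT : StCNT := Pool.Agent.Helper31.QE.pCNT e_FUX e_MBF e_SUM e_IND
theorem e_UNF : StUNF := Pool.Agent.Helper34.QE.pUNF e_SUB e_INT e_FUX e_MBF e_ENT e_IND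
theorem e_ULM : StULM := Pool.Agent.Helper26.QE.pULM
theorem e_PLM : StPLM := Pool.Agent.Helper5.QE.pPLM e_ULM e_GRW
theorem e_EDD : StEDD := Pool.Agent.Helper38.QE.pEDD Pool.Agent.Helper68.QCA.SYC Pool.Agent.Helper68.QCA.EX e_SUB
theorem e_COE : StCOE := Pool.Agent.Helper21.QE.pCOE e_SUB
theorem e_LIM : StLIM := Pool.Agent.Helper7.QE.pLIM Pool.Agent.Helper68.QCA.EX Pool.Agent.Helper68.QCA.CLO Pool.Agent.Helper68.QCA.GRO Pool.Agent.Helper68.QCA.EQV e_INT e_GRW e_FUX e_ENT e_ULM e_PLM e_EDD e_COE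
theorem e_HUR : StHUR := Pool.Agent.Helper82.QE.pHUR e_GRW
theorem e_SNE : StSNE := Pool.Agent.Helper64.QE.pSNE
theorem e_SNX : StSNX := Pool.Agent.Helper36.QE.pSNX e_HUR
theorem e_TUP : StTUP := Pool.Agent.Helper99.QE.pTUP
theorem e_GDQ : StGDQ := Pool.Agent.Helper87.QE.pGDQ Pool.Agent.Helper68.QCA.CNF e_CNT e_UNF e_TUP
theorem e_QUA : StQUA := Pool.Agent.Helper70.QE.pQUA e_GDQ
theorem e_MB1 : StMB1 := Pool.Agent.Helper3.QE.pMB1
theorem e_EQP : StEQP := Pool.Agent.Helper10.QE.pEQP e_SUB e_PGH e_INT e_FUX e_ENT e_SUM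
theorem e_SIN : StSIN := Pool.Agent.Helper24.QE.pSIN e_SUB e_MBF e_IND e_SNX e_EQP
theorem e_FDX : StFDX := Pool.Agent.Helper78.QE.pFDX e_SUB e_FUX
theorem e_PUX : StPUX := Pool.Agent.Helper80.QE.pPUX e_SUB
theorem e_UNW : StUNW := Pool.Agent.Helper72.QE.pUNW e_SUB e_FUX e_IND
theorem e_NGF : StNGF := Pool.Agent.Helper15.QE.pNGF e_SUB e_FDX e_PUX e_UNW
theorem e_SS2 : StSS2 := Pool.Agent.Helper41.QE.pSS2 e_SUB e_FUX e_SNE e_SNX e_EQP e_SIN e_NGF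
theorem e_SEP : StSEP := Pool.Agent.Helper62.QE.pSEP
theorem e_BDS : StBDS := Pool.Agent.Helper26.QE.pBDS e_SUB e_FUX e_MBF e_SNE e_SNX e_EQP e_SIN e_SS2 e_SEP
theorem e_OUT : StOUT := Pool.Agent.Helper52.QE.pOUT e_GRW
theorem e_TR3 : StTR3 := Pool.Agent.Helper64.QE.pTR3 e_HUR e_SNE e_SNX e_OUT e_BDS
theorem e_SMA : StSMA := Pool.Agent.Helper36.QE.pSMA
theorem e_NSW : StNSW := Pool.Agent.Helper33.QE.pNSW
theorem e_EQI : StEQI := Pool.Agent.Helper11.QE.pEQI Pool.Agent.Helper68.QCA.EX e_SUB e_PGH e_INT e_EQP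
theorem e_CNJ : StCNJ := Pool.Agent.Helper81.QE.pCNJ Pool.Agent.Helper68.QCA.EX e_SUB e_SNX e_EQP e_SIN e_TR3 e_EQI
theorem e_HAT : StHAT := Pool.Agent.Helper24.QE.pHAT Pool.Agent.Helper68.QCA.EX Pool.Agent.Helper68.QCA.SYC e_SUB e_EDD e_COE e_SNX e_CNJ
theorem e_FIN : StFIN := Pool.Agent.Helper7.QE.pFIN Pool.Agent.Helper68.QCA.EX Pool.Agent.Helper68.QCA.POS e_SUB e_EDD e_COE e_PUX e_UNW
theorem e_CTR : StCTR := Pool.Agent.Helper47.QE.pCTR Pool.Agent.Helper68.QCA.NID e_LIM e_SNE e_SNX e_QUA e_MB1 e_BDS e_OUT e_TR3 e_SMA e_NSW e_HAT e_FIN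
theorem e_CVH : StCVH := Pool.Agent.Helper2.QE.pCVH
theorem e_ATR : StATR := Pool.Agent.Helper36.QE.pATR
theorem e_ATC : StATC := Pool.Agent.Helper78.QE.pATC
theorem e_ATZ : StATZ := Pool.Agent.Helper22.QE.pATZ e_CVH e_ATR e_ATC
theorem e_AT : StAT := Pool.Agent.Helper97.QE.pAT e_CVH e_ATZ
theorem e_RIE : StRIE := Pool.Agent.Helper75.QE.pRIE Pool.Agent.Helper68.QCA.EX Pool.Agent.Helper68.QCA.FAC e_EDD e_COE
theorem e_EID : StEID := Pool.Agent.Helper84.QE.pEID Pool.Agent.Helper68.QCA.NUL e_CVH e_AT e_RIE e_COE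
theorem e_HDV : StHDV := Pool.Agent.Helper26.QE.pHDV
theorem e_HOT : StHOT := Pool.Agent.Helper40.QE.pHOT Pool.Agent.Helper68.QCA.HOL Pool.Agent.Helper68.QCA.GRO e_EDD e_COE e_RIE e_HDV
theorem e_AB1 : StAB1 := Pool.Agent.Helper6.QE.pAB1
theorem e_AB2 : StAB2 := Pool.Agent.Helper7.QE.pAB2 e_AB1
theorem e_PE1 : StPE1 := Pool.Agent.Helper11.QE.pPE1 e_EID e_HOT e_AB1 e_AB2 e_RIE
theorem e_TRF : StTRF := Pool.Agent.Helper39.QE.pTRF e_CVH e_RIE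
theorem e_RPH : StRPH := Pool.Agent.Helper36.QE.pRPH Pool.Agent.Helper68.QCA.UNI Pool.Agent.Helper68.QCA.REP e_COE
theorem e_SQ1 : StSQ1 := Pool.Agent.Helper93.QE.pSQ1 Pool.Agent.Helper68.QCA.EX Pool.Agent.Helper68.QCA.UNI Pool.Agent.Helper68.QCA.CNF Pool.Agent.Helper68.QCA.FAC Pool.Agent.Helper68.QCA.CMP Pool.Agent.Helper68.QCA.PRE Pool.Agent.Helper68.QCA.POS Pool.Agent.Helper68.QCA.NUL Pool.Agent.Helper68.QCA.SYC e_SUB e_INT e_EDD e_COE e_CVH e_TRF e_RPH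
theorem e_SWP : StSWP := Pool.Agent.Helper38.QE.pSWP e_SUB e_FUX e_IND e_CVH
theorem e_EUP : StEUP := Pool.Agent.Helper66.QE.pEUP e_GRW e_SWP
theorem e_STR : StSTR := Pool.Agent.Helper7.QE.pSTR e_PE1 e_TRF e_SQ1 e_EUP e_CTR
theorem e_FUC : StFUC := Pool.Agent.Helper41.QE.pFUC e_SUB
theorem e_YGR : StYGR := Pool.Agent.Helper8.QE.pYGR Pool.Agent.Helper68.QCA.EX Pool.Agent.Helper68.QCA.UNI Pool.Agent.Helper68.QCA.REP Pool.Agent.Helper68.QCA.SYC e_SUB e_EDD e_COE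
theorem e_BND (hAIN : Pool.Agent.Helper86.QA.StAIN) : StBND := Pool.Agent.Helper39.QE.pBND hAIN e_PE1 e_FUC e_YGR
theorem e_EFI : StEFI := Pool.Agent.Helper11.QE.pEFI e_SUB e_FUX e_IND e_CVH
theorem e_RPG : StRPG := Pool.Agent.Helper78.QE.pRPG Pool.Agent.Helper68.QCA.UNI Pool.Agent.Helper68.QCA.REP
theorem e_EFD : StEFD := Pool.Agent.Helper82.QE.pEFD e_RPG e_EFI

end Pool.Agent.Helper61.QE
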