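import Pool.Agent.Helper61.QE.Defs

/-!
# Project QD, PART E, statements, file 1: the group, the normalised maps, unfolding
-/

open MeasureTheory Set Filter Topology Complex
open scoped ContDiff ComplexConjugate ENNReal

namespace Pool.Agent.Helper61.QE

open Pool.Agent.Helper68.QC

/-- SUB (about 150 lines)
(Rules for Moebius maps; direct computations.)
(1) composition: numerator and denominator of `A * B` at `z` are `den B z` times those of `A` at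
`mob B z` (if `den A (mob B z) = 0` both sides of the second formula are `0`).  (2) derivative.
(3) difference.  (4)-(8) `A ∈ SU(1,1)`, `A = [[a,b],[conj b, conj a]]`, `‖a‖² - ‖b‖² = 1`:
`‖conj b z + conj a‖ ≥ ‖a‖ - ‖b‖ > 0` for `‖z‖ ≤ 1`;
`‖den A z‖² - ‖a z + b‖² = (‖a‖²-‖b‖²)(1-‖z‖²)`;
reflection: `den A (rf z) = conj (a z + b)/conj z`, `a (rf z) + b = conj (den A z)/conj z`
for `z ≠ 0`, and if a denominator vanishes both sides are `0`.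
(9) `jj A` is the entrywise conjugate of `A` for `A ∈ SU(1,1)`.
Hypotheses: none. -/
def StSUB : Prop :=
  (∀ A B : SL, ∀ z, den B z ≠ 0 →
    den (A * B) z = den A (mob B z) * den B z ∧ mob (A * B) z = mob A (mob B z)) ∧
  (∀ A : SL, ∀ z, den A z ≠ 0 → HasDerivAt (mob A) ((den A z ^ 2)⁻¹) z) ∧
  (∀ A : SL, ∀ z w, den A z ≠ 0 → den A w ≠ 0 →
    mob A z - mob A w = (z - w) / (den A z * den A w)) ∧
  (∀ A : SL, SU A → ∀ z, ‖z‖ ≤ 1 → den A z ≠ 0) ∧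
  (∀ A : SL, SU A → ∀ z, den A z ≠ 0 → (1 - ‖mob A z‖ ^ 2) * ‖den A z‖ ^ 2 = 1 - ‖z‖ ^ 2) ∧
  (∀ A : SL, SU A → ∀ z, z ≠ 0 → mob A (rf z) = rf (mob A z)) ∧
  (∀ A B : SL, SU A → SU B → SU (A * B) ∧ SU A⁻¹ ∧ SU (jj A)) ∧
  (∀ A : SL, SU A → ‖A 0 0‖ ^ 2 = 1 + ‖A 1 0‖ ^ 2) ∧
  (∀ A : SL, SU A → (∀ i j, jj A i j = conj (A i j)) ∧
    ∀ u, mob (jj A) u = conj (mob A (conj u)) ∧ den (jj A) u = conj (den A (conj u))) ∧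
  (∀ A : SL, ∀ z, den A z ≠ 0 → mob A⁻¹ (mob A z) = z ∧ den A⁻¹ (mob A z) * den A z = 1)

/-- PGH (about 200 lines)
(The map seen from infinity.)  Let `G` be a homeomorphism of the plane with `G 0 = 0` and
`PG G u = (G u⁻¹)⁻¹` (`PG G 0 = (G 0)⁻¹ = 0` in Lean).  (1) `PG G` is a homeomorphism of the plane:
it is continuous at `u ≠ 0` (`G u⁻¹ ≠ 0`), at `0` because `‖G z‖ → ∞` as `‖z‖ → ∞` (`G` is a
homeomorphism, so a closed embedding, `tendsto_cobounded` / cocompact), and its inverse is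
`PG G.symm`.  (2) `PG (F ∘ G) = PG F ∘ PG G`.  (3) Intertwining: with `A = [[a,b],[c,d]]`,
`jj A = [[d,c],[b,a]]` is `A` conjugated by `z ↦ 1/z`.  Check the four clauses of `Intw` for
`jj A`, `jj B`, `PG G`, using those for `A`, `B`, `G`: for `z ≠ 0`, `den (jj A) z = b z + a = z (a z⁻¹ + b)`
is zero iff `den A z⁻¹ ≠ 0` and `mob A z⁻¹ = 0` (determinant one), iff the same for `B` and `G z⁻¹`
(`G w = 0` iff `w = 0`), iff `den (jj B) (PG G z) = 0`; for `z = 0`, `den (jj A) 0 = a` is zero iff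
`A 1 0 ≠ 0` and `A 0 0 / A 1 0 = 0`, iff the same for `B` (fourth clause and `G 0 = 0`; if
`A 1 0 = 0` then `B 1 0 = 0` and both `A 0 0`, `B 0 0` are nonzero).  Values: for `z ≠ 0` with
`den A z⁻¹ ≠ 0`: `mob (jj A) z = (mob A z⁻¹)⁻¹`; if `den A z⁻¹ = 0` then `mob (jj A) z = 0` and
`mob (jj B) (PG G z) = 0`; for `z = 0`: `mob (jj A) 0 = c/a = (a/c)⁻¹`, fourth clause (or `c = 0`,
`c' = 0`: both `0`).  Third clause: `b = 0` iff (`d = 0` false and) `mob A 0 = 0` with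
`den A 0 ≠ 0`.  Fourth clause: `b ≠ 0`, `d/b = (b/d)⁻¹ = (mob A 0)⁻¹` if `d ≠ 0`, and `0` if `d = 0`,
in which case `den B 0 = 0`, too.
Hypotheses: none. -/
def StPGH : Prop :=
  (∀ G : ℂ ≃ₜ ℂ, G 0 = 0 → (∃ P : ℂ ≃ₜ ℂ, (P : ℂ → ℂ) = PG G ∧ (P.symm : ℂ → ℂ) = PG G.symm) ∧
    PG G 0 = 0 ∧ ∀ A B : SL, Intw A B G → Intw (jj A) (jj B) (PG G)) ∧
  (∀ F G : ℂ → ℂ, PG (fun z => F (G z)) = fun u => PG F (PG G u))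

/-- INT (about 120 lines)
(Rules for `Intw`.)  (1) composition: if `Intw A B f` and `Intw B C g` then
`Intw A C (g ∘ f)` (all four clauses directly).  (2) if `Intw A B f`, `f` a homeomorphism, and
`Intw A C (g ∘ f)` then `Intw B C g`, and `Intw B A f.symm`.  (3) `f` bijective homeomorphism,
`Intw A B f`, `Intw A' B' f` and `Intw (A * A') (B * B') f`: follows from (1)-type computations on the
sphere; only needed in the form: if `s, R` are homomorphisms then nothing to prove (not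
included).
Hypotheses: none. -/
def StINT : Prop :=
  (∀ (A B C : SL) (f g : ℂ → ℂ), Intw A B f → Intw B C g → Intw A C (fun z => g (f z))) ∧
  (∀ (A B : SL) (f : ℂ ≃ₜ ℂ), Intw A B f → Intw B A f.symm) ∧
  (∀ (A B C : SL) (f : ℂ ≃ₜ ℂ) (g : ℂ → ℂ), Intw A B f → Intw A C (fun z => g (f z)) →
    Intw B C g)

/-- GRW (about 250 lines)
(Koebe bounds for `Gd M G`.)  `P = PG G`.  (1) `P` is holomorphic on `D`: at `u ≠ 0` clear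
(`u⁻¹ ∈ Dx`, `G u⁻¹ ≠ 0` since `G` is injective and `G 0 = 0`), and it is continuous at `0` (hPGH), so
the singularity is removable; injective on `D`; `P 0 = 0`; so `p = deriv P 0 ≠ 0` (injective
holomorphic, `StRIJ`-type fact; or `P` is locally injective at `0`).  (2) `P` omits the value `1`:
`P u = 1` means `G u⁻¹ = 1 = G q`, `‖q‖ ≤ 1`.  So `f = P/p ∈ ClassS` omits `1/p`, and
`Pool.Agent.Helper39.QM.omit_value` with `Pool.Agent.Helper80.Bieb.bieberbach` (`‖coeff 2 f‖ ≤ 2`)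
gives `‖p‖ ≤ 4`.  (3) `u ↦ u / P u` (value `1/p` at `0`) is holomorphic on `D`, and for `‖u‖ → 1` its
modulus `‖u‖ ‖G u⁻¹‖` has upper limit at most `M` (`G` is uniformly continuous near the circle and
`‖G‖ ≤ M` there); maximum principle on the discs of radius `r → 1`: `‖u‖ ‖G u⁻¹‖ ≤ M` and
`‖1/p‖ ≤ M`.  This is (2nd clause) `‖G z‖ ≤ M ‖z‖` for `‖z‖ > 1`, and `M⁻¹ ≤ ‖p‖` (`M ≥ 1` because
`G q = 1`).  (4) Let `‖w‖ ≤ 1`, `ξ = G w`.  `f u = P u / (p (1 - ξ P u))` is in `ClassS`: `ξ P u = 1` would mean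
`G u⁻¹ = ξ = G w`; injective.  `Pool.Agent.Helper39.QM.grow` (Koebe growth):
`‖P u/(1 - ξ P u)‖ (1-‖u‖)² ≤ ‖p‖ ‖u‖ ≤ 4 ‖u‖`, and `P u/(1 - ξ P u) = 1/(G u⁻¹ - ξ)`; with `z = u⁻¹`:
`(‖z‖-1)²/‖z‖ ≤ 4 ‖G z - ξ‖`.  For `w = 0` this is the last clause.
Hypotheses: hPGH. -/
def StGRW : Prop := ∀ (M : ℝ) (G : ℂ ≃ₜ ℂ), Gd M G →
  (DifferentiableOn ℂ (PG G) D ∧ InjOn (PG G) D ∧ PG G 0 = 0 ∧ 1 ≤ M ∧
    M⁻¹ ≤ ‖deriv (PG G) 0‖ ∧ ‖deriv (PG G) 0‖ ≤ 4) ∧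
  (∀ z ∈ Dx, ‖G z‖ ≤ M * ‖z‖) ∧
  (∀ z ∈ Dx, ∀ w, ‖w‖ ≤ 1 → (‖z‖ - 1) ^ 2 / ‖z‖ ≤ 4 * ‖G z - G w‖) ∧
  (∀ u ∈ D, ‖PG G u‖ * (1 - ‖u‖) ^ 2 ≤ 4 * ‖u‖)

/-- FUX (about 150 lines)
(Disjoint translates of a neighbourhood of infinity; countability.)  `T = {γ ≠ 1 : ‖mob (s γ) 0‖ ≤ 1/2}`
is finite and `mob (s γ) 0 ≠ 0` (`free` at `0`), so there is `δ ∈ (0, 1/2]` with
`‖mob (s γ) 0‖ ≥ δ` for all `γ ≠ 1`.  Put `ρ0 = 2/δ`.  If `‖u‖ < δ/2`, `A = s γ`, then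
`‖mob A u‖ ≥ ‖mob A 0‖ - ‖u‖ ≥ δ/2` because `‖mob A 0‖ ≤ (‖mob A u‖ + ‖u‖)/(1 + ‖mob A u‖ ‖u‖)` (the
pseudo-hyperbolic distance of `mob A u`, `mob A 0` is `‖u‖`:
`‖(x - y)/(1 - conj y x)‖ = ‖u‖` for `x = mob A u`, `y = mob A 0`, from hSUB (3), (5)).
Reflection (hSUB): for `‖z‖ > ρ0`, `u = rf z`, `‖u‖ < δ/2`: `mob A u ≠ 0`, `den A z = conj (A 0 0 u + A 0 1)/conj u ≠ 0`
and `‖mob A z‖ = 1/‖mob A u‖ ≤ ρ0`.  `A 0 1 ≠ 0` since `mob A 0 ≠ 0`, so `A 1 0 ≠ 0`, and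
`‖cn A‖ = ‖A 0 0/A 1 0‖ = 1/‖mob A 0‖ ≤ ρ0`, `‖pl A‖ = ‖cn A‖`; both are `> 1`.  Countable: `Γ` is the union
over `n` of the finite sets `{‖mob (s γ) 0‖ ≤ 1 - 1/(n+1)}`.  The group `js s` (`jj ∘ s`, entrywise
conjugate) is `Fu`, too, with abelian integral `u ↦ conj (h (conj u))` and fundamental domain
`conj '' F`.
Hypotheses: hSUB. -/
def StFUX : Prop := ∀ (Γ : Type) [Group Γ] (s : Γ →* SL), Fu s →
  Countable Γ ∧ Fu (js s) ∧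
  ∃ ρ0 : ℝ, 1 < ρ0 ∧ ∀ γ, γ ≠ 1 → s γ 1 0 ≠ 0 ∧ 1 < ‖cn (s γ)‖ ∧ ‖cn (s γ)‖ ≤ ρ0 ∧
    ‖pl (s γ)‖ = ‖cn (s γ)‖ ∧ ∀ z, ρ0 < ‖z‖ → den (s γ) z ≠ 0 ∧ ‖mob (s γ) z‖ ≤ ρ0

/-- MBF (about 80 lines)
(Poles.)  `den B ξ = c (ξ - p)`, `c = B 1 0`, `p = pl B`, `q = cn B`;
`mob B ξ - q = ((a c ξ + b c) - a (c ξ + d))/(c · c (ξ - p)) = -1/(c² (ξ - p))`; difference formula from
hSUB (3); inverse matrix `[[d,-b],[-c,a]]`.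
Hypotheses: hSUB. -/
def StMBF : Prop := ∀ B : SL, B 1 0 ≠ 0 →
  (∀ ξ, den B ξ = B 1 0 * (ξ - pl B)) ∧
  (∀ ξ, ξ ≠ pl B → mob B ξ - cn B = -1 / (B 1 0 ^ 2 * (ξ - pl B))) ∧
  (∀ a b, a ≠ pl B → b ≠ pl B →
    ‖mob B a - mob B b‖ * (‖B 1 0‖ ^ 2 * ‖a - pl B‖ * ‖b - pl B‖) = ‖a - b‖) ∧
  pl B⁻¹ = cn B ∧ cn B⁻¹ = pl B ∧ B⁻¹ 1 0 = - B 1 0

/-- ENT (about 150 lines)
(Bounded entries.)  `ρ = ‖cn A‖ = ‖pl A‖ > 1` (hSUB (8)).  `c = B 1 0 ≠ 0` (third clause of `Intw`),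
`q = cn B = G (cn A)`, `p = pl B = G (pl A)` (first clause: `den B (G z) = 0` iff `den A z = 0`).  hGRW:
`‖p‖, ‖q‖ ≤ M ρ`.  `z = 0`: `den A 0 ≠ 0`, `mob B 0 = G (mob A 0)` with `‖mob A 0‖ < 1`, so (hMBF)
`c² p = 1/(G (mob A 0) - q)·`, that is `‖c‖² ‖p‖ ‖G (mob A 0) - q‖ = 1`.  By hGRW (third clause with
`w = 0` and `w = mob A 0`) both factors are `≥ (ρ-1)²/(4ρ)`, and they are `≤ M ρ`, resp. `≤ M ρ + M`.  So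
`‖c‖` is bounded above and below.  `B 0 0 = q c`, `B 1 1 = -p c`, `B 0 1 = (B 0 0 B 1 1 - 1)/c`.
Hypotheses: hSUB hGRW hMBF. -/
def StENT : Prop := ∀ A : SL, SU A → A 1 0 ≠ 0 → ∀ M : ℝ, ∃ C : ℝ, 0 < C ∧
  ∀ G : ℂ ≃ₜ ℂ, Gd M G → ∀ B : SL, Intw A B G →
    (∀ i j, ‖B i j‖ ≤ C) ∧ C⁻¹ ≤ ‖B 1 0‖ ∧ cn B = G (cn A) ∧ pl B = G (pl A)

/-- SUM (about 250 lines)
(The sum of `|c_γ|⁻⁴`.)  `ρ0` from hFUX; the constant is `max ρ0 (4 ρ0⁴)`.  For `γ ≠ 1` put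
`c = R γ 1 0`, `p = pl (R γ) = G (pl (s γ))`, `q = cn (R γ) = G (cn (s γ))`; by hGRW (`M = 1`)
`‖p‖, ‖q‖ ≤ ρ0`.  Ball `B_γ = ball p (1/(2 ρ0 ‖c‖²))`.  For `ξ ∈ B_γ`, `ξ ≠ p`: hMBF gives
`‖mob (R γ) ξ - q‖ > 2 ρ0`, so `‖mob (R γ) ξ‖ > ρ0`.  Let `w = G.symm ξ`; `den (s γ) w ≠ 0`,
`mob (R γ) ξ = G z` with `z = mob (s γ) w`; `‖z‖ > ρ0` because `‖G z‖ ≤ max 1 ‖z‖` (`Gd.le`, hGRW).
`w = mob (s γ⁻¹) z`, so `‖w‖ ≤ ρ0` (hFUX for `γ⁻¹`) and `‖ξ‖ = ‖G w‖ ≤ ρ0`.  Disjointness up to the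
poles: if `ξ ∈ B_γ ∩ B_δ` (`ξ` no pole) then `z = mob (s γ) w` and `z' = mob (s δ) w` have modulus
`> ρ0` and `z' = mob (s (δ γ⁻¹)) z`, contradiction to hFUX if `δ ≠ γ`.  So for a finite set `T` of
elements `≠ 1`: `∑ π/(4 ρ0² ‖c‖⁴) = ∑ volume B_γ ≤ volume (closedBall 0 ρ0) = π ρ0²` (the poles are
finitely many points, a null set).
Hypotheses: hSUB hGRW hFUX hMBF hENT. -/
def StSUM : Prop := ∀ (Γ : Type) [Group Γ] (s : Γ →* SL), Fu s → ∃ C : ℝ, 0 < C ∧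
  ∀ (G : ℂ ≃ₜ ℂ), Gd 1 G → ∀ R : Γ →* SL, (∀ γ, Intw (s γ) (R γ) G) →
    (∀ γ, γ ≠ 1 → R γ 1 0 ≠ 0 ∧ ‖pl (R γ)‖ ≤ C ∧ ‖cn (R γ)‖ ≤ C) ∧
    ∀ T : Finset Γ, 1 ∉ T → ∑ γ ∈ T, (‖R γ 1 0‖ ^ 4)⁻¹ ≤ C

open Classical in
/-- Number of group elements whose pole is close to `a`. -/
noncomputable def Nd {Γ : Type} [Group Γ] (R : Γ →* SL) (δ : ℝ) (a : ℂ) : ℝ≥0∞ :=
  ∑' γ : Γ, if γ ≠ 1 ∧ ‖a - pl (R γ)‖ * (δ * ‖R γ 1 0‖ ^ 2) ≤ 2 then 1 else 0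

/-- IND (about 120 lines)
(Invariance of the inner domain.)  `Ω = G '' D`: for `ξ = G z`, `z ∈ D`: `den (s γ) z ≠ 0`, so
`den (R γ) ξ ≠ 0` and `mob (R γ) ξ = G (mob (s γ) z) ∈ Ω` (hSUB (5): `mob (s γ) z ∈ D`).  Change of
variables: `mob (R γ)` is injective and holomorphic on `Ω` with derivative `(den (R γ) ξ)⁻²`
(hSUB), maps `Ω` onto `Ω` (inverse `mob (R γ⁻¹)`):
`∫⁻ ξ in Ω, g (mob (R γ) ξ) * ofReal (‖den (R γ) ξ‖⁻¹ ^ 4) = ∫⁻ ξ in Ω, g ξ` for measurable `g`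
(`MeasureTheory.lintegral_image_eq_lintegral_abs_det_fderiv_mul`; the determinant of the
multiplication by `a` is `‖a‖²`, `Pool.Agent.Helper80.Bieb.det_mul`), and the same for a measurable
subset `E` of `Ω` and its image.  The fundamental domain: `G '' F` is measurable, its translates by
`mob (R γ)` are disjoint and cover `Ω`, so `∫⁻ ξ in Ω, g ξ = ∑' γ, ∫⁻ ξ in (mob (R γ)) '' (G '' F), g ξ`.
Hypotheses: hSUB hFUX. -/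
def StIND : Prop := ∀ (Γ : Type) [Group Γ] (s : Γ →* SL) (F : Set ℂ) (G : ℂ ≃ₜ ℂ) (R : Γ →* SL),
  Fu s → FD s F → (∀ γ, Intw (s γ) (R γ) G) →
  (∀ γ, ∀ ξ ∈ G '' D, den (R γ) ξ ≠ 0 ∧ mob (R γ) ξ ∈ G '' D ∧ mob (R γ⁻¹) (mob (R γ) ξ) = ξ) ∧
  (∀ γ, ∀ E ⊆ G '' D, MeasurableSet E → ∀ g : ℂ → ℝ≥0∞, Measurable g →
    ∫⁻ ξ in E, g (mob (R γ) ξ) * ENNReal.ofReal (‖den (R γ) ξ‖⁻¹ ^ 4) =
      ∫⁻ ξ in (mob (R γ)) '' E, g ξ) ∧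
  (∀ g : ℂ → ℝ≥0∞, Measurable g → ∫⁻ ξ in G '' D, g ξ =
    ∑' γ : Γ, ∫⁻ ξ in G '' F, g (mob (R γ) ξ) * ENNReal.ofReal (‖den (R γ) ξ‖⁻¹ ^ 4))

/-- CNT (about 200 lines)
(Counting.)  `Ω = G '' D`, `γ ≠ 1`, `c = R γ 1 0 ≠ 0`, `p, q` pole and image of infinity; put
`ρ = 2/(δ ‖c‖²)`.  The set `E = Ω ∩ closedBall p ρ` is mapped by `mob (R γ)` into
`Ω ∩ {y : ‖y - q‖ ≥ δ/2}` (hMBF, hIND; `p ∉ Ω`), and the inverse map `mob (R γ⁻¹)` has derivative of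
modulus `(‖c‖ ‖y - q‖)⁻² ≤ (2/(δ ‖c‖))²` there (hMBF for the inverse: `den (R γ⁻¹) y = -c (y - q)`).  So
(hIND for `γ⁻¹`) `volume E ≤ 16/(δ⁴ ‖c‖⁴) volume Ω`.  `∫⁻ Nd = ∑' γ ≠ 1, volume E_γ`
(`lintegral_tsum`, `Γ` countable by hFUX) `≤ 16/δ⁴ volume Ω ∑' ‖c_γ‖⁻⁴ ≤ 16 C/δ⁴ volume Ω` (hSUM: a tsum in
`ℝ≥0∞` is the supremum of the finite sums).  Measurability of `Nd`: countable sum of indicators of
closed sets.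
Hypotheses: hSUB hFUX hMBF hSUM hIND. -/
def StCNT : Prop := ∀ (Γ : Type) [Group Γ] (s : Γ →* SL) (F : Set ℂ), Fu s → FD s F →
  ∀ δ : ℝ, 0 < δ → ∃ C : ℝ, 0 < C ∧
  ∀ (G : ℂ ≃ₜ ℂ), Gd 1 G → ∀ R : Γ →* SL, (∀ γ, Intw (s γ) (R γ) G) →
    Measurable (Nd R δ) ∧
    ∫⁻ a in G '' D, Nd R δ a ≤ ENNReal.ofReal C * volume (G '' D)

/-- UNF (about 300 lines)
(Unfolding inequality.)  `Ω = G '' D`, `k (a,b) = ofReal (‖dKern Φ a b‖²)`.  Invariance: for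
`a, b ∈ Ω`, `B = R γ`, `B' = R' γ`: `Φ (mob B a) = mob B' (Φ a)` on `Ω` (rules hINT: `Intw (R γ) (R' γ) Φ`),
differentiate: `deriv Φ (mob B a) (den B a)⁻² = (den B' (Φ a))⁻² deriv Φ a`; with hSUB (3) for `B` and `B'`:
`dKern Φ (mob B a) (mob B b) = dKern Φ a b * (den B a)² (den B b)²` (`a ≠ b`; for `a = b` both sides are `0`
in Lean).  So `k (mob B a, mob B b) ‖den B a‖⁻⁴ ‖den B b‖⁻⁴ = k (a, b)`.
Let `𝓑 = {(a,b) : Nd R δ a ≤ m, Nd R δ b ≤ m, δ ≤ ‖a - b‖}`.  hIND (third item) in the first variable and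
then the change of variables `mob (R γ)` in the second (hIND second item, `E = Ω`):
`∫⁻ a in Ω, ∫⁻ b in Ω, 1_𝓑 k = ∑' γ, ∫⁻ a in G '' F, ∫⁻ b in Ω, 1_𝓑 (mob (R γ) a, mob (R γ) b) k (a,b)`
`= ∫⁻ a in G '' F, ∫⁻ b in Ω, k (a,b) #{γ : (mob (R γ) a, mob (R γ) b) ∈ 𝓑}` (Tonelli).
The number is `≤ 2 m + 1`: fix `γ0` in the set, `(a',b') = γ0 (a,b) ∈ 𝓑`; any other `γ` of the set is
`δ' γ0`, `δ' ≠ 1`, and with `c = R δ' 1 0`, `p = pl (R δ')` hMBF gives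
`δ ‖c‖² ‖a'-p‖ ‖b'-p‖ ≤ ‖a'-b'‖ ≤ 2 max (‖a'-p‖) (‖b'-p‖)`, so `min (‖a'-p‖) (‖b'-p‖) δ ‖c‖² ≤ 2`:
`δ'` is counted in `Nd R δ a'` or in `Nd R δ b'`, which are `≤ m` (`Ω` does not contain `p`).
(`ENNReal` valued counting: `Nd R δ a' ≥ ` number of the elements of any finite set of such `δ'`.)
Hypotheses: hSUB hINT hFUX hMBF hENT hIND. -/
def StUNF : Prop := ∀ (Γ : Type) [Group Γ] (s : Γ →* SL) (F : Set ℂ) (G Φ : ℂ ≃ₜ ℂ)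
  (R R' : Γ →* SL), Fu s → FD s F → Gd 1 G → (∀ γ, Intw (s γ) (R γ) G) →
  (∀ γ, Intw (s γ) (R' γ) (fun z => Φ (G z))) → DifferentiableOn ℂ Φ (G '' D) →
  (∀ a ∈ G '' D, deriv Φ a ≠ 0) → ∀ δ : ℝ, 0 < δ → Measurable (Nd R δ) → ∀ m : ℕ,
  ∫⁻ a in G '' D, ∫⁻ b in G '' D, {x : ℂ × ℂ | Nd R δ x.1 ≤ m ∧ Nd R δ x.2 ≤ m ∧
      δ ≤ ‖x.1 - x.2‖}.indicator (fun x => ENNReal.ofReal (‖dKern Φ x.1 x.2‖ ^ 2)) (a, b) ≤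
    (2 * m + 1) * ∫⁻ a in G '' F, ∫⁻ b in G '' D, ENNReal.ofReal (‖dKern Φ a b‖ ^ 2)

end Pool.Agent.Helper61.QE
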