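import Pool.Agent.Helper61.QE.St1

/-!
# Project QD, PART E, statements, file 2: compactness, the concentration set
-/

open MeasureTheory Set Filter Topology Complex
open scoped ContDiff ComplexConjugate ENNReal

namespace Pool.Agent.Helper61.QE

open Pool.Agent.Helper68.QC

/-- ULM (about 150 lines)
(Montel along an ultrafilter.)  For `z ∈ V` the bounded sequence `f n z` has a limit `g z` along `U`
(`IsCompact.ultrafilter_le_nhds` for a closed ball).  On a compact subset `K` of `V` the `f n` are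
uniformly Lipschitz at small distances (Cauchy estimate on a compact neighbourhood of `K`), so
pointwise convergence along `U` is uniform on `K` (finite cover by small balls; a finite intersection
of members of `U` is in `U`): `TendstoLocallyUniformlyOn`.  The limit is holomorphic
(`TendstoLocallyUniformlyOn.differentiableOn`).
Hypotheses: none. -/
def StULM : Prop := ∀ (U : Ultrafilter ℕ) (f : ℕ → ℂ → ℂ) (V : Set ℂ), IsOpen V →
  (∀ n, DifferentiableOn ℂ (f n) V) →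
  (∀ K ⊆ V, IsCompact K → ∃ C : ℝ, ∀ n, ∀ z ∈ K, ‖f n z‖ ≤ C) →
  ∃ g : ℂ → ℂ, DifferentiableOn ℂ g V ∧ TendstoLocallyUniformlyOn f g (U : Filter ℕ) V

/-- PLM (about 150 lines)
(Univalent limit.)  `f n = PG (G n)` is holomorphic on `D`, `‖f n u‖ ≤ 4 ‖u‖/(1-‖u‖)²` (hGRW), so
hULM gives `P`.  `P 0 = 0`; `deriv P 0` is the limit of `deriv (f n) 0`
(`TendstoLocallyUniformlyOn.deriv`), of modulus `≥ M⁻¹ > 0`, so `P` is not constant.  Injective: Hurwitz's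
theorem: if `P a = P b`, `a ≠ b`, the functions `f n z - f n a` have no zero in a small closed ball
about `b` not containing `a` (injectivity of `f n`), they converge uniformly there to `P z - P a`, which is
not identically zero near `b` (identity theorem, `D` connected), so it has an isolated zero at `b`; on a
small circle about `b` its modulus is `≥ m > 0`, and `DiffContOnCl.ball_subset_image_closedBall`
(minimum of `‖f n z - f n b‖` on the circle `≥ m/2`) shows that `f n` takes the value `f n a`, which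
is close to `f n b` (both tend to `P a = P b`), in the ball: contradiction.
(A similar statement: `StRHU` in Pool/Agent/Helper20/QD/St2.lean.)
Hypotheses: hULM hGRW. -/
def StPLM : Prop := ∀ (U : Ultrafilter ℕ) (M : ℝ) (G : ℕ → (ℂ ≃ₜ ℂ)), (∀ n, Gd M (G n)) →
  ∃ P : ℂ → ℂ, DifferentiableOn ℂ P D ∧ InjOn P D ∧ P 0 = 0 ∧
    TendstoLocallyUniformlyOn (fun n => PG (G n)) P (U : Filter ℕ) D

/-- EDD (about 150 lines)
(Symmetric coefficients preserve the disc.)  `e = nq μ`; by `StSYC` `e (1/conj z) = 1/conj (e z)`.  For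
`‖z‖ = 1`: `1/conj z = z`, so `e z = 1/conj (e z)` and `‖e z‖ = 1` (`e z ≠ 0`).  So `e` maps the circle
into the circle, and the inverse does, too: `‖e z‖ = 1` gives `e (1/conj z) = 1/conj (e z) = e z`, so
`1/conj z = z` (`z ≠ 0` because `e 0 = 0`).  `e '' D` is connected, contains `0`, and does not meet the circle:
`e '' D ⊆ D`; `e '' Dx` is connected (`Dx` is connected), does not meet the circle and is
unbounded (`e` is a homeomorphism of the plane): `e '' Dx ⊆ Dx`; with surjectivity equality.  The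
inverse commutes with the reflection, too.
If `A ∈ SU(1,1)` and `Intw A B e` then `B ∈ SU(1,1)`: `B` maps the circle into the circle
(`den A ≠ 0` there), and for `ζ` on the circle `den B ζ ≠ 0`, `‖mob B ζ‖ = 1`, `e (mob A ..)`; also
`mob B` maps `D` into `D` without pole in `D`: a Moebius map with `‖mob B ζ‖ = 1` for all
`‖ζ‖ = 1` satisfies `‖a ζ + b‖² = ‖c ζ + d‖²` on the circle, so `‖a‖²+‖b‖² = ‖c‖²+‖d‖²` and
`a conj b = c conj d`; with `ad - bc = 1`: `conj a = conj a (ad - bc) = ‖a‖² d - c conj a b`, and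
`conj a b = conj c d`, so `conj a = d (‖a‖² - ‖c‖²)`; similarly `conj d = a (‖d‖²-‖b‖²)` with
`‖d‖² - ‖b‖² = ‖a‖² - ‖c‖² =: x`, so `‖a‖ = x ‖d‖`, `‖d‖ = x ‖a‖` (`x ≥ 0` from the disc being mapped into
the disc: `‖b‖ < ‖d‖` since `mob B 0 = e (mob A 0)..` or `den B` has no zero in `D`), `x = 1`; then
`conj a = d` and `c = conj b`.
Hypotheses: hSYC hEX hSUB. -/
def StEDD : Prop := ∀ k < 1, ∀ μ, Bel k μ →
  (∀ᵐ z : ℂ, μ (1 / conj z) * conj z ^ 2 = conj (μ z) * z ^ 2) →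
  nq μ '' D = D ∧ nq μ '' Dx = Dx ∧ (∀ z, nq μ (rf z) = rf (nq μ z)) ∧
  (∀ z, (nq μ).symm (rf z) = rf ((nq μ).symm z)) ∧ nq μ 0 = 0 ∧ (nq μ).symm 0 = 0 ∧
  ∀ A B : SL, SU A → Intw A B (nq μ) → SU B

/-- COE (about 200 lines)
(Properties of the coefficients.)  `nuT h` is measurable (`measurable_deriv`, `rf` measurable), of
modulus `≤ 1` (`0` or `1`), and for `A = s γ`: invariance `InvB A (nuT h)`: differentiate
`h (mob A w) = h w + c` on `D`: `deriv h (mob A w) = deriv h w * (den A w)²`.  For `‖z‖ > 1`,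
`den A z ≠ 0`, `w = rf z`: `mob A w = rf (mob A z)` (hSUB), `‖mob A z‖ > 1`, `den A w = conj (a z + b)/conj z`
where `a z + b = mob A z * den A z`; put in: `nuT h (mob A z) = nuT h z * conj (den A z)² / (den A z)²`
(if `deriv h w = 0` both sides are zero).  `‖z‖ < 1`: both zero.  `‖z‖ = 1`, or `den A z = 0`: null set.
`muT κ h t` is `Bel (max k ‖t‖)` (disjoint supports), invariant, holomorphic in `t` (affine).
`syX h t`: equals `t * nuT h z` for `‖z‖ > 1`, and `conj t * conj (deriv h z)/deriv h z` for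
`0 < ‖z‖ < 1` (`rf (rf z) = z`, `(rf z)²/conj (rf z)² = z²/conj z²`); at `z = 0`, `‖z‖ = 1` it is `0` or of
modulus `≤ ‖t‖`; `Bel ‖t‖`; it satisfies the hypothesis of `StSYC` (`0 < ‖z‖ ≠ 1`) and is invariant
(on `D` by `deriv h (mob A z) = deriv h z (den A z)²`; outside as above).  `syY κ` likewise: equal to `κ`
on `D`, `Bel k`, symmetric, invariant.
Hypotheses: hSUB. -/
def StCOE : Prop := ∀ (Γ : Type) [Group Γ] (s : Γ →* SL) (h κ : ℂ → ℂ) (k : ℝ),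
  (∀ γ, SU (s γ)) → (DifferentiableOn ℂ h D ∧ ∀ γ, ∃ c, ∀ z ∈ D, h (mob (s γ) z) = h z + c) →
  0 ≤ k → Kap s k κ →
  (∀ t : ℂ, Bel (max k ‖t‖) (muT κ h t) ∧ (∀ γ, InvB (s γ) (muT κ h t))) ∧
  (∀ t : ℂ, Bel ‖t‖ (syX h t) ∧ (∀ γ, InvB (s γ) (syX h t)) ∧
    (∀ᵐ z : ℂ, syX h t (1 / conj z) * conj z ^ 2 = conj (syX h t z) * z ^ 2) ∧
    (∀ z, 1 < ‖z‖ → syX h t z = muT κ h t z) ∧
    (∀ z ∈ D, z ≠ 0 → syX h t z = conj t * (conj (deriv h z) / deriv h z))) ∧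
  Bel k (syY κ) ∧ (∀ γ, InvB (s γ) (syY κ)) ∧
    (∀ᵐ z : ℂ, syY κ (1 / conj z) * conj z ^ 2 = conj (syY κ z) * z ^ 2) ∧
    ∀ z ∈ D, ∀ t : ℂ, syY κ z = muT κ h t z

/-- LIM (about 300 lines)
(Existence of the limit.)  `U = hyperfilter ℕ`.  `P` from hPLM with `M = 1` (`Sq.gd`).  `ν` from
`StCLO` (`k = ‖t0‖`).  `Ri`: the entries of `R n γ` are bounded uniformly in `n`: for `γ ≠ 1` by hENT
(`s γ 1 0 ≠ 0` by hFUX), for `γ = 1` `R n 1 = 1`; limits along `U` of bounded sequences; determinant one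
and multiplicativity pass to the limit (build the `MonoidHom`; `Ri γ` as an element of `SL` from the
limit matrix, whose determinant is the limit of `1`).  `Ri'`: put `e = nq (syX h t0)` and
`H n = nq (N n) ∘ G n ∘ e.symm` (a homeomorphism `ℂ ≃ₜ ℂ`).  `H n 0 = 0`; `H n (e q) = nq (N n) 1 = 1` with
`‖e q‖ ≤ 1` (hEDD); for `‖z‖ ≤ 1`: `‖e.symm z‖ ≤ 1` (hEDD), `‖G n (e.symm z)‖ ≤ 1`, `‖H n z‖ ≤ M` with
`M` from `StGRO`; holomorphic on `Dx` (`Sq.phol`): so `Gd M (H n)`.  With `Intw (s γ) (A γ) e`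
(`StEQV`, hCOE; `A γ ∈ SU(1,1)` by hEDD; `A γ 1 0 ≠ 0` iff `s γ 1 0 ≠ 0`) we get
`Intw (A γ) (R' n γ) (H n)` (hINT), so hENT bounds the entries of `R' n γ`.  (`γ = 1`: `R' n 1 = 1`.)
`qhol`: `PG (H n)` is holomorphic on `D` and `‖PG (H n) v‖ ≤ 4 ‖v‖/(1-‖v‖)²` (hGRW), so its limit along `U`
is holomorphic (hULM).  For `v ∈ D`, `w = conj (e.symm (conj v)) ∈ D`: `e.symm v⁻¹ = w⁻¹` for `v ≠ 0` (hEDD, `v⁻¹ = rf (conj v)`),
so `PG (H n) v = PG (nq (N n)) (PG (G n) w)`; it converges to `PG (nq ν) (P w)`: if `v = 0` all are `0`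
(`w = 0`); if `v ≠ 0` then `w ≠ 0`, `P w ≠ 0`, `(PG (G n) w)⁻¹ → (P w)⁻¹` and `nq (N n) → nq ν` uniformly on
balls, `nq ν` continuous.
Hypotheses: hEX hCLO hGRO hEQV hSUB hPGH hINT hGRW hFUX hENT hULM hPLM hEDD hCOE. -/
def StLIM : Prop := ∀ (Γ : Type) [Group Γ] (s : Γ →* SL) (F : Set ℂ) (h : ℂ → ℂ) (t0 : ℂ)
  (G : ℕ → (ℂ ≃ₜ ℂ)) (N : ℕ → ℂ → ℂ) (R R' : ℕ → Γ →* SL),
  Fu s → FD s F → Ab s h → 0 < ‖t0‖ → ‖t0‖ < 1 → Sq s F h t0 G N R R' →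
  ∃ (U : Ultrafilter ℕ) (P ν : ℂ → ℂ) (Ri Ri' : Γ →* SL), Lm s h t0 G N R R' U P ν Ri Ri'

/-- HUR (about 120 lines)
(Stability of the outer domain.)  Let `x P u = 1`, `u ∈ D`; `P u = x⁻¹ ≠ 0`, `u ≠ 0`.  Choose `r > 0` with
`closedBall u r ⊆ D ∖ {0}`; `m = min ‖P z - P u‖` on the circle of radius `r`, `m > 0` by injectivity.
For `U`-almost all `n`: `‖PG (G n) z - P z‖ ≤ m/8` on the closed ball.  Then
`‖PG (G n) z - PG (G n) u‖ ≥ m/2` on the circle, so (`DiffContOnCl.ball_subset_image_closedBall`)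
`PG (G n)` maps `closedBall u r` onto a set containing `ball (PG (G n) u) (m/4) ⊇ ball (P u) (m/8)`.  For `y` close
to `x`, `y⁻¹ ∈ ball (P u) (m/8)`: `y⁻¹ = PG (G n) v = (G n v⁻¹)⁻¹`.
Hypotheses: hGRW. -/
def StHUR : Prop := ∀ (U : Ultrafilter ℕ) (G : ℕ → (ℂ ≃ₜ ℂ)) (P : ℂ → ℂ), (∀ n, Gd 1 (G n)) →
  DifferentiableOn ℂ P D → InjOn P D → P 0 = 0 →
  TendstoLocallyUniformlyOn (fun n => PG (G n)) P (U : Filter ℕ) D →
  ∀ x : ℂ, ∀ u ∈ D, x * P u = 1 → ∃ ε > 0, ∀ᶠ n in (U : Filter ℕ), ∀ y ∈ Metric.ball x ε,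
    ∃ v ∈ D, v ≠ 0 ∧ y = G n v⁻¹

/-- SNE (about 150 lines)
(The concentration set.)  `Ω n = G n '' D` is open, nonempty, contained in `closedBall 0 1`, so
`0 < volume (Ω n) < ∞`.  `Sset` is contained in `closedBall 0 1` (for `‖x‖ > 1` a small ball does not meet `Ω n`)
and closed (if `x` is not in it, take `ε` such that for no `c` ...; every point of `ball x (ε/2)` fails with
`ε/2`).  Nonempty: otherwise for every `x ∈ closedBall 0 1` there is `ε_x > 0` such that for all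
`c ∈ (0,∞)` it is not true that `c vol (Ω n) ≤ vol (Ω n ∩ ball x ε_x)` for `U`-almost all `n`, so (ultrafilter)
`vol (Ω n ∩ ball x ε_x) < c vol (Ω n)` for `U`-almost all `n`.  Finitely many, `K` say, of the balls cover
`closedBall 0 1`; take `c = 1/(2K)`: `vol (Ω n) ≤ ∑ < K c vol (Ω n)`, contradiction.
Hypotheses: none. -/
def StSNE : Prop := ∀ (U : Ultrafilter ℕ) (G : ℕ → (ℂ ≃ₜ ℂ)), (∀ n, Gd 1 (G n)) →
  (Sset U G).Nonempty ∧ IsClosed (Sset U G) ∧ Sset U G ⊆ Metric.closedBall 0 1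

/-- SNX (about 60 lines)
(The concentration set avoids the limit of the outer domains.)  If `x P u = 1`, then by hHUR a ball
about `x` is contained in `G n '' Dx`, hence disjoint from `G n '' D`, for `U`-almost all `n`.
Hypotheses: hHUR. -/
def StSNX : Prop := ∀ (U : Ultrafilter ℕ) (G : ℕ → (ℂ ≃ₜ ℂ)) (P : ℂ → ℂ), (∀ n, Gd 1 (G n)) →
  DifferentiableOn ℂ P D → InjOn P D → P 0 = 0 →
  TendstoLocallyUniformlyOn (fun n => PG (G n)) P (U : Filter ℕ) D →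
  ∀ x ∈ Sset U G, ∀ u ∈ D, x * P u ≠ 1

/-- TUP (about 150 lines)
(A good quadruple.)  `μ` a finite measure of mass `m` on `ℂ`, `A i` measurable sets of measure
`≥ α`, `E` a measurable symmetric set of pairs with `(μ × μ) (E ∩ A i × A j) ≤ β` for `i ≠ j` and
`6 β m² < α⁴`.  Otherwise for all `(a 0, …, a 3)` in the product some pair `(a i, a j)`, `i < j`, is in `E`, so
`1 ≤ ∑_{i<j} 1_E (a i, a j)` on the product; integrate over the four variables (iterated `lintegral`s,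
Tonelli): `α⁴ ≤ ∏ μ (A i) ≤ 6 β m²`.
Hypotheses: none. -/
def StTUP : Prop := ∀ (μ : Measure ℂ) [IsFiniteMeasure μ] (A : Fin 4 → Set ℂ) (E : Set (ℂ × ℂ))
  (α β : ℝ≥0∞), MeasurableSet E → (∀ x, x ∈ E → x.swap ∈ E) → (∀ i, MeasurableSet (A i)) →
  (∀ i, α ≤ μ (A i)) → (∀ i j, i ≠ j → (μ.prod μ) (E ∩ (A i) ×ˢ (A j)) ≤ β) →
  6 * β * μ univ ^ 2 < α ^ 4 → ∃ a : Fin 4 → ℂ, (∀ i, a i ∈ A i) ∧ ∀ i j, i ≠ j → (a i, a j) ∉ E

/-- GDQ (about 300 lines)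
(Good quadruples.)  `x 0, …, x 3` distinct points of `Sset`, `ε > 0` smaller than a quarter of all
distances, `δ = ` half of the smallest distance: points `a i ∈ ball (x i) ε` have distances `≥ δ`.
`c > 0` with `vol (Ω n ∩ ball (x i) ε) ≥ c vol (Ω n)` for `U`-almost all `n` (minimum of four constants).
hCNT: `∫_{Ω n} Nd ≤ C vol (Ω n)`, so (Markov) `vol {a ∈ Ω n : Nd a > m} ≤ (C/m) vol (Ω n) ≤ (c/2) vol (Ω n)` for a natural
number `m ≥ 2C/c`.  `A i = Ω n ∩ ball (x i) ε ∩ {Nd ≤ m}` has volume `≥ (c/2) vol (Ω n)`.  For `η > 0` let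
`E = {(a,b) ∈ Ω n × Ω n : δ ≤ ‖a-b‖, Nd a ≤ m, Nd b ≤ m, ‖K (a,b) - 1‖ ≥ η}`, `K (a,b) = deriv Φ a deriv Φ b (a-b)²/(Φ a - Φ b)²`,
`Φ = nq (N n)`; `dKern Φ a b = (K - 1)/(a-b)²` and `‖a-b‖ ≤ 2`, so `‖dKern‖ ≥ η/4` on `E`; hUNF and `Sq.small`:
`(η/4)² vol² (E) ≤ (2m+1) vol(Ω n)²/(n+1)`.  hTUP with `μ = volume.restrict (Ω n)`, `α = (c/2) vol (Ω n)`,
`β = 16 (2m+1) vol (Ω n)²/(η² (n+1))`: `6 β vol² < α⁴` for `n` large.  (`U ≤ atTop`.)  `deriv Φ ≠ 0` on `Ω n`: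
`Φ` is holomorphic (`StCNF` and `Sq.nout`) and injective there.
Hypotheses: hEX hCNF hSUB hINT hFUX hMBF hENT hIND hCNT hUNF hTUP. -/
def StGDQ : Prop := ∀ (Γ : Type) [Group Γ] (s : Γ →* SL) (F : Set ℂ) (h : ℂ → ℂ) (t0 : ℂ)
  (G : ℕ → (ℂ ≃ₜ ℂ)) (N : ℕ → ℂ → ℂ) (R R' : ℕ → Γ →* SL) (U : Ultrafilter ℕ),
  Fu s → FD s F → ‖t0‖ < 1 → Sq s F h t0 G N R R' → (U : Filter ℕ) ≤ atTop →
  ∀ x : Fin 4 → ℂ, (∀ i, x i ∈ Sset U G) → (∀ i j, i ≠ j → x i ≠ x j) → ∀ ε > 0, ∀ η > 0,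
  ∀ᶠ n in (U : Filter ℕ), ∃ a : Fin 4 → ℂ, (∀ i, a i ∈ G n '' D ∩ Metric.ball (x i) ε) ∧
    ∀ i j, i ≠ j → ‖deriv (nq (N n)) (a i) * deriv (nq (N n)) (a j) * (a i - a j) ^ 2 /
      (nq (N n) (a i) - nq (N n) (a j)) ^ 2 - 1‖ < η

/-- QUA (about 200 lines)
(Squared cross ratios.)  From hGDQ with `ε, η → 0`: `K01 K23/(K02 K13) = (cr a)²/(cr (Φ a))²` with
`cr a = (a 0 - a 1)(a 2 - a 3)/((a 0 - a 2)(a 1 - a 3))` (the derivatives cancel; they are `≠ 0` because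
`K ≠ 0` for `η < 1`).  Along `U` with `ε = η = 1/j`, `j → ∞` (choose for every `j`): `a i → x i`,
`nq (N n) (a i) → nq ν (x i)` (`ncon` uniform convergence on `closedBall 0 2`, continuity of `nq ν`),
and the left side tends to `1`.  Write it with `ε`: for every `ε' > 0` there are points `a i`, `b i` with
`‖a i - x i‖ < ε'`, `‖b i - nq ν (x i)‖ < ε'`, `‖(cr a)²/(cr b)² - 1‖ < ε'`; the function is continuous at
`(x, nq ν x)` (`nq ν` is injective), so `(cr x)² = (cr (nq ν x))²`.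
Hypotheses: hGDQ. -/
def StQUA : Prop := ∀ (Γ : Type) [Group Γ] (s : Γ →* SL) (F : Set ℂ) (h : ℂ → ℂ) (t0 : ℂ)
  (G : ℕ → (ℂ ≃ₜ ℂ)) (N : ℕ → ℂ → ℂ) (R R' : ℕ → Γ →* SL) (U : Ultrafilter ℕ) (P ν : ℂ → ℂ)
  (Ri Ri' : Γ →* SL),
  Fu s → FD s F → ‖t0‖ < 1 → Sq s F h t0 G N R R' → Lm s h t0 G N R R' U P ν Ri Ri' →
  ∀ x : Fin 4 → ℂ, (∀ i, x i ∈ Sset U G) → (∀ i j, i ≠ j → x i ≠ x j) →
  ((x 0 - x 1) * (x 2 - x 3) / ((x 0 - x 2) * (x 1 - x 3))) ^ 2 =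
    ((nq ν (x 0) - nq ν (x 1)) * (nq ν (x 2) - nq ν (x 3)) /
      ((nq ν (x 0) - nq ν (x 2)) * (nq ν (x 1) - nq ν (x 3)))) ^ 2

/-- MB1 (about 150 lines)
(From squared cross ratios to a Moebius map; algebra.)  `y ∈ S`.  Put `u = (x - y)⁻¹`,
`v = (φ x - φ y)⁻¹` for `x ∈ S ∖ {y}` (`φ` is injective on `S`).  If `S ∖ {y}` has at most one element `x`, take
`A2 = 1`, `A1 = u - v` (or `0`).  Otherwise let `x2 ≠ x3` be two elements, `A2 = (u2 - u3)/(v2 - v3)`,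
`A1 = u2 - A2 v2`; the formula holds for `x2, x3`.  For another `x4`: the cross ratio of the hypothesis for
the quadruple `(y, x2, x3, x4)` is `(u4 - u3)/(u4 - u2) =: X`, and for `φ` it is `Y = (v4 - v3)/(v4 - v2)`:
`X² = Y²`.  For the quadruple `(y, x4, x3, x2)` one gets `(1 - X)² = (1 - Y)²` since
`(u2 - u3)/(u2 - u4) = 1 - X`.  Subtract: `X = Y`; solve for `u4`: `u4 = A1 + A2 v4`.
Hypotheses: none. -/
def StMB1 : Prop := ∀ (S : Set ℂ) (φ : ℂ → ℂ), InjOn φ S →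
  (∀ x : Fin 4 → ℂ, (∀ i, x i ∈ S) → (∀ i j, i ≠ j → x i ≠ x j) →
    ((x 0 - x 1) * (x 2 - x 3) / ((x 0 - x 2) * (x 1 - x 3))) ^ 2 =
      ((φ (x 0) - φ (x 1)) * (φ (x 2) - φ (x 3)) /
        ((φ (x 0) - φ (x 2)) * (φ (x 1) - φ (x 3)))) ^ 2) →
  ∀ y ∈ S, ∃ A1 A2 : ℂ, A2 ≠ 0 ∧ ∀ x ∈ S, x ≠ y → (x - y)⁻¹ = A1 + A2 * (φ x - φ y)⁻¹

/-- EQP (about 150 lines)
(Equivariance of the limits.)  (1) For each `n` `Intw (jj (s γ)) (jj (R n γ)) (PG (G n))` (hPGH) and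
`den (jj (s γ)) u ≠ 0` on `D` (hSUB), so
`PG (G n) (mob (jj (s γ)) u) * den (jj (R n γ)) (PG (G n) u) = jj (R n γ) 0 0 * PG (G n) u + jj (R n γ) 0 1`.
Limit along `U` (pointwise convergence at `u` and at `mob (jj (s γ)) u ∈ D`, entries converge).  If
`den (jj (Ri γ)) (P u) = 0` then the numerator is zero as well, contradiction to determinant one.
(2) for each `n` `Intw (R n γ) (R' n γ) (nq (N n))` (hINT); for `ξ` with `den (Ri γ) ξ ≠ 0` we have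
`den (R n γ) ξ ≠ 0` for `U`-almost all `n`, `mob (R n γ) ξ → mob (Ri γ) ξ`, and `nq (N n) → nq ν` uniformly on
balls: `nq ν (mob (Ri γ) ξ) * den (Ri' γ) (nq ν ξ) = numerator`, and again the denominator is not
zero.  (3) If `γ ≠ 1` then `Ri γ 1 0 ≠ 0` (lower bound of hENT passes to the limit), and
`pl (Ri γ) * P ((pl (s γ))⁻¹) = 1`: `pl (R n γ) = G n (pl (s γ))` (hENT), `PG (G n) (pl (s γ))⁻¹ = (pl (R n γ))⁻¹`,
`(pl (s γ))⁻¹ ∈ D ∖ {0}`, limit.  (4) the bound of hSUM for `R n` (constant independent of `n`) passes to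
the limit for each finite set `T`.
Hypotheses: hSUB hPGH hINT hFUX hENT hSUM. -/
def StEQP : Prop := ∀ (Γ : Type) [Group Γ] (s : Γ →* SL) (F : Set ℂ) (h : ℂ → ℂ) (t0 : ℂ)
  (G : ℕ → (ℂ ≃ₜ ℂ)) (N : ℕ → ℂ → ℂ) (R R' : ℕ → Γ →* SL) (U : Ultrafilter ℕ) (P ν : ℂ → ℂ)
  (Ri Ri' : Γ →* SL),
  Fu s → ‖t0‖ < 1 → Sq s F h t0 G N R R' → Lm s h t0 G N R R' U P ν Ri Ri' →
  (∀ γ, ∀ u ∈ D, den (jj (Ri γ)) (P u) ≠ 0 ∧ P (mob (jj (s γ)) u) = mob (jj (Ri γ)) (P u)) ∧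
  (∀ γ ξ, den (Ri γ) ξ ≠ 0 → den (Ri' γ) (nq ν ξ) ≠ 0 ∧
    nq ν (mob (Ri γ) ξ) = mob (Ri' γ) (nq ν ξ)) ∧
  (∀ γ, γ ≠ 1 → Ri γ 1 0 ≠ 0 ∧ ‖(pl (s γ))⁻¹‖ < 1 ∧ pl (Ri γ) * P ((pl (s γ))⁻¹) = 1) ∧
  ∃ C : ℝ, ∀ T : Finset Γ, 1 ∉ T → ∑ γ ∈ T, (‖Ri γ 1 0‖ ^ 4)⁻¹ ≤ C

/-- SIN (about 200 lines)
(The concentration set is invariant.)  `x ∈ Sset`.  `den (Ri γ) x ≠ 0`: for `γ = 1` clear; for `γ ≠ 1`
`den (Ri γ) x = 0` means `x = pl (Ri γ)` (hMBF), and `x P ((pl (s γ))⁻¹) = 1` (hEQP) contradicts hSNX.  Let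
`y = mob (Ri γ) x`, `ε > 0`.  There are `ε1 > 0` and `C` such that for `U`-almost all `n` and all `ξ` in
`ball x ε1`: `‖mob (R n γ) ξ - y‖ < ε` and `0 < ‖den (R n γ) ξ‖ ≤ C` (entries converge).  By hIND (change of
variables, `E = Ω n ∩ ball x ε1`) `vol (Ω n ∩ ball y ε) ≥ vol (mob (R n γ) '' E) ≥ C⁻⁴ vol E ≥ C⁻⁴ c vol (Ω n)`.
Hypotheses: hSUB hMBF hIND hSNX hEQP. -/
def StSIN : Prop := ∀ (Γ : Type) [Group Γ] (s : Γ →* SL) (F : Set ℂ) (h : ℂ → ℂ) (t0 : ℂ)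
  (G : ℕ → (ℂ ≃ₜ ℂ)) (N : ℕ → ℂ → ℂ) (R R' : ℕ → Γ →* SL) (U : Ultrafilter ℕ) (P ν : ℂ → ℂ)
  (Ri Ri' : Γ →* SL),
  Fu s → FD s F → ‖t0‖ < 1 → Sq s F h t0 G N R R' → Lm s h t0 G N R R' U P ν Ri Ri' →
  ∀ x ∈ Sset U G, ∀ γ, den (Ri γ) x ≠ 0 ∧ mob (Ri γ) x ∈ Sset U G

end Pool.Agent.Helper61.QE
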