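import Pool.Agent.Helper61.QE.St2

/-!
# Project QD, PART E, statements, file 3: the contradiction
-/

open MeasureTheory Set Filter Topology Complex
open scoped ContDiff ComplexConjugate ENNReal

namespace Pool.Agent.Helper61.QE

open Pool.Agent.Helper68.QC

/-- FDX (about 250 lines)
(A measurable fundamental domain.)  For `z ∈ D` the orbit meets every closed disc of radius `< 1` in
a finite set (for `‖z‖ ≤ r`, `‖mob (s γ) z‖ ≤ r'` the pseudo-hyperbolic triangle inequality gives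
`‖mob (s γ) 0‖ ≤ (r + r')/(1 + r r') < 1`, `Fu.disc`), so `z ↦ ` the triple (norm, real part,
imaginary part) has a lexicographic minimum on the orbit.  Let
`F = {z ∈ D | for all γ, (‖z‖, re z, im z) ≤ (‖mob (s γ) z‖, re, im) lexicographically}`
(written out with `<`, `=`).  Measurable: countable intersection (`Γ` countable, hFUX) of sets
defined by continuous functions on the open set `D`.  `cov`: the minimum; `uni`: if `z` and `mob (s γ) z`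
are in `F` then both triples are equal, so `mob (s γ) z = z` and `γ = 1`; `cpt`: `Fu.coc`: the minimum has
norm `≤ r`.
Hypotheses: hSUB hFUX. -/
def StFDX : Prop := ∀ (Γ : Type) [Group Γ] (s : Γ →* SL), Fu s → ∃ F, FD s F

/-- PUX (about 250 lines)
(Partition function.)  `r < 1` from `Fu.coc`.  `χ0` a smooth function with values in `[0,1]`, equal to `1`
on `closedBall 0 r`, with compact support in `D` (`ContDiffBump`).  For `z` in a compact subset `K` of `D`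
only finitely many `γ` have `χ0 (mob (s γ) z) ≠ 0` (as in hFDX), so `Σ z = ∑' γ, χ0 (mob (s γ) z)` is locally
a finite sum of smooth functions on `D` (`mob (s γ)` is smooth on `D`, hSUB), `Σ ≥ 1` on `D` (`coc`) and
`Σ (mob (s γ) z) = Σ z` (reindex the sum, hSUB).  `χ = χ0/Σ` on `D`, `0` outside (smooth because `χ0` has compact
support in `D`).
Hypotheses: hSUB hFUX. -/
def StPUX : Prop := ∀ (Γ : Type) [Group Γ] (s : Γ →* SL), Fu s → ∃ χ, Chi s χ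

/-- UNW (about 250 lines)
(Integrals of exact forms vanish.)  The integrands have compact support in `D`.  First item:
decompose `D` into the translates of `F` (`FD`; change of variables `mob (s γ)`, Jacobian
`‖den (s γ) z‖⁻⁴`; as in hIND with `G` the identity, for Bochner integrals of a bounded function with
compact support: only finitely many `γ` contribute since `F` is relatively compact):
`∫ V dzb χ = ∑ γ, ∫ z in F, V (γ z) dzb χ (γ z) ‖den‖⁻⁴ = ∑ γ, ∫ z in F, V z dzb χ (γ z) conj (den)⁻²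
= ∫ z in F, V z ∑ γ, dzb (χ ∘ γ) z = 0`, because `dzb (χ ∘ γ) z = dzb χ (γ z) conj (γ' z)`
(`dzb_comp` in Pool/Agent/Helper68/QC/Cal.lean; `γ' = den⁻²`) and the (locally finite) sum of the
`χ ∘ γ` is the constant `1` on `D`.  Second item: the conjugate of the first for `conj V`
(`dz χ = conj (dzb χ)` for real `χ`).
Hypotheses: hSUB hFUX hIND. -/
def StUNW : Prop := ∀ (Γ : Type) [Group Γ] (s : Γ →* SL) (F : Set ℂ) (χ : ℂ → ℝ), Fu s → FD s F →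
  Chi s χ →
  (∀ V : ℂ → ℂ, ContinuousOn V D → (∀ γ, ∀ z ∈ D, V (mob (s γ) z) = den (s γ) z ^ 2 * V z) →
    ∫ z, V z * dzb (fun w => (χ w : ℂ)) z = 0) ∧
  (∀ V : ℂ → ℂ, ContinuousOn V D →
    (∀ γ, ∀ z ∈ D, V (mob (s γ) z) = conj (den (s γ) z) ^ 2 * V z) →
    ∫ z, V z * dz (fun w => (χ w : ℂ)) z = 0)

/-- NGF (about 200 lines)
(A closed hyperbolic surface has no affine structure.)
`V z = deriv (deriv g) z/(2 deriv g z) - conj z/(1 - ‖z‖²)` is smooth on `D`.  Transformation: from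
`g (γ z) = A g z + B`: `g' (γ z) γ' z = A g' z` (so `A ≠ 0`), logarithmic derivative:
`(g''/g') (γ z) γ' z + γ''/γ' = (g''/g') z`; with `γ z = (a z + b)/den`, `den = conj b z + conj a`,
`γ' = den⁻²`, `γ''/γ' = -2 conj b/den`; and
`conj (γ z) γ' z/(1 - ‖γ z‖²) = conj (a z + b)/(den (1 - ‖z‖²)) = conj z/(1 - ‖z‖²) + conj b/den`
(`1 - ‖γ z‖² = (1-‖z‖²)/‖den‖²`).  Hence `V (γ z) γ' z = V z`.  `dzb V = -(1 - ‖z‖²)⁻²`.  hUNW with `χ`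
(hPUX), `F` (hFDX): `0 = ∫ V dzb χ = - ∫ (dzb V) χ = ∫ χ (1 - ‖z‖²)⁻² > 0` (integration by parts: `V χ`
extended by `0` is smooth with compact support and `∫ dzb (V χ) = 0`); `χ ≥ 0` is continuous and not
identically zero (`Chi.sum`).
Hypotheses: hSUB hFDX hPUX hUNW. -/
def StNGF : Prop := ∀ (Γ : Type) [Group Γ] (s : Γ →* SL), Fu s → ∀ g : ℂ → ℂ,
  DifferentiableOn ℂ g D → (∀ z ∈ D, deriv g z ≠ 0) →
  (∀ γ, ∃ A B : ℂ, ∀ z ∈ D, g (mob (s γ) z) = A * g z + B) → False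

/-- SS2 (about 120 lines)
(Two points.)  `Sset` is not empty (hSNE).  If it is `{x}`, then `den (Ri γ) x ≠ 0`, `mob (Ri γ) x = x` for all
`γ` (hSIN).  `g u = P u/(1 - x P u)` (denominator `≠ 0` by hSNX) is holomorphic and injective on `D`, so
`deriv g ≠ 0`; with `Ri γ = [[a,b],[c,d]]`, `a x + b = x (c x + d)` and `P (mob (jj (s γ)) u) = (d P + c)/(b P + a)`
(hEQP): `g (mob (jj (s γ)) u) = (d P + c)/((a - c x)(1 - x P)) = ((d + c x) g u + c)/(a - c x)`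
(`b - x d = -x (a - c x)`; `(d + c x)(a - c x) = 1`).  `jj (s γ) = js s γ`, `Fu (js s)` by hFUX: contradiction to
hNGF.
Hypotheses: hSUB hFUX hSNE hSNX hEQP hSIN hNGF. -/
def StSS2 : Prop := ∀ (Γ : Type) [Group Γ] (s : Γ →* SL) (F : Set ℂ) (h : ℂ → ℂ) (t0 : ℂ)
  (G : ℕ → (ℂ ≃ₜ ℂ)) (N : ℕ → ℂ → ℂ) (R R' : ℕ → Γ →* SL) (U : Ultrafilter ℕ) (P ν : ℂ → ℂ)
  (Ri Ri' : Γ →* SL),
  Fu s → FD s F → ‖t0‖ < 1 → Sq s F h t0 G N R R' → Lm s h t0 G N R R' U P ν Ri Ri' →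
  ∃ x ∈ Sset U G, ∃ y ∈ Sset U G, x ≠ y

/-- SEP (about 120 lines)
(Separation.)  `ρ = (r' - r)/2`.  `m = min ‖P z - P w‖` over `‖w‖ ≤ r`, `‖z - w‖ = ρ` (compact set, `‖z‖ < r'`):
`m > 0` by injectivity.  `DiffContOnCl.ball_subset_image_closedBall`: `ball (P w) (m/2) ⊆ P '' closedBall w ρ`; for
`‖v‖ ≥ r'`, `v ∉ closedBall w ρ`, so by injectivity `‖P v - P w‖ ≥ m/2`.  Let `K = max ‖P w‖` over
`‖w‖ ≤ r`.  If `‖P v‖ ≤ 2 K`: `‖P w P v‖ ≤ 2K² ≤ (4K²/m) ‖P v - P w‖`; otherwise `‖P v - P w‖ ≥ ‖P v‖/2` and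
`‖P w P v‖ ≤ 2K ‖P v - P w‖`.
Hypotheses: none. -/
def StSEP : Prop := ∀ P : ℂ → ℂ, DifferentiableOn ℂ P D → InjOn P D → ∀ r r' : ℝ, 0 ≤ r →
  r < r' → r' < 1 → ∃ C : ℝ, 0 < C ∧ ∀ w, ‖w‖ ≤ r → ∀ v ∈ D, r' ≤ ‖v‖ →
    ‖P w * P v‖ ≤ C * ‖P v - P w‖

/-- BDS (about 300 lines)
(The frontier is contained in the concentration set.)  `g u = P u/(1 - x0 P u)` is holomorphic and
injective on `D` (hSNX), `g '' D` is open (`Pool.Agent.Helper80.Bieb.isOpen_image_of_injOn`) and contains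
`0 = g 0`; `η ≠ 0`.  Let `ξ = x0 + η⁻¹`.  `Sset` is closed (hSNE), so let `ε > 0` and find a point of
`Sset` within `ε` of `ξ`.  There are `u ∈ D` with `g u` arbitrarily close to `η`, and then `P u ≠ 0` and
`(P u)⁻¹ = x0 + (g u)⁻¹` is close to `ξ`; moreover `‖u‖` is arbitrarily close to `1` (if `‖u‖ ≤ ρ < 1` for
points `u` with `g u → η` then `η ∈ g '' closedBall 0 ρ`, but `η ∉ g '' D`).  Write `u = mob (jj (s γ)) w` with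
`‖w‖ ≤ r` (`coc` for `js s`, hFUX).  Since `‖u‖ → 1`, `γ` leaves every finite subset of `Γ`, in
particular `γ ≠ 1`.  Put `c = Ri γ 1 0`, `p = pl (Ri γ)`, `q = cn (Ri γ)`, `v = (pl (s γ))⁻¹`: `p P v = 1` (hEQP), and
`‖v‖ = ‖mob (s γ) 0‖` tends to `1` (`Fu.disc`), so `‖v‖ ≥ r' = (1+r)/2` outside a finite set of `γ`.  By hEQP
`P u = mob (jj (Ri γ)) (P w)`, so `(P u)⁻¹ = (b P w + a)/(d P w + c) = q - P w/(c² (1 - p P w))` and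
`1 - p P w = (P v - P w)/P v`; hSEP: `‖(P u)⁻¹ - q‖ ≤ C/‖c‖²`.  (`1 - p P w ≠ 0` as `v ≠ w`.)  By the last
item of hEQP `{γ : ‖Ri γ 1 0‖ ≤ K}` is finite for each `K`, so `‖c‖ → ∞`.
Let `y1 ≠ y2` in `Sset` (hSS2); one of them, `y`, satisfies `‖y - p‖ ≥ ‖y1 - y2‖/2`; `mob (Ri γ) y ∈ Sset`
(hSIN) and `‖mob (Ri γ) y - q‖ = 1/(‖c‖² ‖y - p‖)` (hMBF) is small.  So this point of `Sset` is close to
`q`, hence to `(P u)⁻¹` and to `ξ`.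
Hypotheses: hSUB hFUX hMBF hSNE hSNX hEQP hSIN hSS2 hSEP. -/
def StBDS : Prop := ∀ (Γ : Type) [Group Γ] (s : Γ →* SL) (F : Set ℂ) (h : ℂ → ℂ) (t0 : ℂ)
  (G : ℕ → (ℂ ≃ₜ ℂ)) (N : ℕ → ℂ → ℂ) (R R' : ℕ → Γ →* SL) (U : Ultrafilter ℕ) (P ν : ℂ → ℂ)
  (Ri Ri' : Γ →* SL),
  Fu s → FD s F → ‖t0‖ < 1 → Sq s F h t0 G N R R' → Lm s h t0 G N R R' U P ν Ri Ri' →
  ∀ x0 ∈ Sset U G, ∀ η ∈ frontier ((fun u => P u / (1 - x0 * P u)) '' D),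
    η ≠ 0 ∧ x0 + η⁻¹ ∈ Sset U G

/-- OUT (about 80 lines)
(The outer domain is large.)  Let `y ≠ 0`, `‖y‖ < 1`; `z n = (G n).symm y⁻¹` has `‖z n‖ > 1` (`Gd.le` with
`M = 1`), and `‖y⁻¹‖ = ‖G n (z n)‖ ≤ ‖z n‖` (hGRW), so `u n = (z n)⁻¹` satisfies `‖u n‖ ≤ ‖y‖` and
`PG (G n) (u n) = y`.  Let `u` be the limit of `u n` along `U`; `‖u‖ ≤ ‖y‖`, and by locally uniform
convergence `P u = y`.
Hypotheses: hGRW. -/
def StOUT : Prop := ∀ (U : Ultrafilter ℕ) (G : ℕ → (ℂ ≃ₜ ℂ)) (P : ℂ → ℂ), (∀ n, Gd 1 (G n)) →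
  DifferentiableOn ℂ P D → P 0 = 0 →
  TendstoLocallyUniformlyOn (fun n => PG (G n)) P (U : Filter ℕ) D →
  ∀ y : ℂ, ‖y‖ < 1 → ∃ u ∈ D, P u = y

/-- TR3 (about 200 lines)
(Points of the concentration set on vertical lines.)  `L = {x : ∀ u ∈ D, x P u ≠ 1}`.  It is closed (if
`x P u = 1` then `P '' D` is a neighbourhood of `x⁻¹`, open mapping) and `L ⊆ closedBall 0 1` (hOUT).  Meets the
line `re = τ`: `G n '' closedBall 0 1` is connected, contains `0 = G n 0` and `1 = G n q`, so it contains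
`y n` with `re (y n) = τ`, `‖y n‖ ≤ 1`; let `y` be the limit along `U`; `y ∈ L`: if `y P u = 1` then by hHUR
a ball about `y` is contained in `G n '' Dx` for `U`-almost all `n`, but `y n ∈ G n '' closedBall 0 1`.
Let `x ∈ L` with `re x = τ` and largest imaginary part (compactness), `x0 ∈ Sset` (hSNE).  If `x = x0` we are
done.  Otherwise `η = (x - x0)⁻¹` lies in the frontier of `g '' D`, `g u = P u/(1 - x0 P u)`: `η ∉ g '' D`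
(`g u = η` gives `x P u = 1`), and `x + i t ∉ L` for `t > 0`, so `(x + i t) P u = 1` for some `u`, and
`g u = (x + i t - x0)⁻¹` is close to `η` (`x + i t ≠ x0` because `x0 ∈ L`, hSNX).  By hBDS
`x = x0 + η⁻¹ ∈ Sset`.
Hypotheses: hHUR hSNE hSNX hOUT hBDS. -/
def StTR3 : Prop := ∀ (Γ : Type) [Group Γ] (s : Γ →* SL) (F : Set ℂ) (h : ℂ → ℂ) (t0 : ℂ)
  (G : ℕ → (ℂ ≃ₜ ℂ)) (N : ℕ → ℂ → ℂ) (R R' : ℕ → Γ →* SL) (U : Ultrafilter ℕ) (P ν : ℂ → ℂ)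
  (Ri Ri' : Γ →* SL),
  Fu s → FD s F → ‖t0‖ < 1 → Sq s F h t0 G N R R' → Lm s h t0 G N R R' U P ν Ri Ri' →
  ∀ τ ∈ Icc (0 : ℝ) 1, ∃ x ∈ Sset U G, x.re = τ

/-- SMA (about 80 lines)
(Smallness; inequalities.)  `u1 = (x-w)⁻¹`, `u2 = (y-w)⁻¹`, `v1 = (x'-w')⁻¹`, `v2 = (y'-w')⁻¹`: `‖u i‖ ≤ 2`,
`‖v i - u i‖ ≤ (1/800)/((1/2)(1/2 - 1/800)) ≤ 0.0051`; `A1 (v2 - v1) = u1 v2 - u2 v1 = u1 (v2 - u2) + u2 (u1 - v1)`,
so `‖A1‖ ‖v1 - v2‖ ≤ 0.0204`; `‖u1 - u2‖ = ‖x-y‖/(‖x-w‖ ‖y-w‖) ≥ 1/8`, `‖v1 - v2‖ ≥ 0.125 - 0.0102`.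
Hypotheses: none. -/
def StSMA : Prop := ∀ x y w x' y' w' A1 A2 : ℂ, ‖x‖ ≤ 1 → ‖y‖ ≤ 1 → ‖w‖ ≤ 1 →
  1 / 2 ≤ ‖x - y‖ → 1 / 2 ≤ ‖x - w‖ → 1 / 2 ≤ ‖y - w‖ →
  ‖x' - x‖ ≤ 1 / 1600 → ‖y' - y‖ ≤ 1 / 1600 → ‖w' - w‖ ≤ 1 / 1600 →
  (x - w)⁻¹ = A1 + A2 * (x' - w')⁻¹ → (y - w)⁻¹ = A1 + A2 * (y' - w')⁻¹ → ‖A1‖ < 1 / 2

/-- NSW (about 200 lines)
(The outer domain is mapped into itself.)  `g u = P u/(1 - x0 P u)` holomorphic, injective on `D`; `V = g '' D`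
is open (`Pool.Agent.Helper80.Bieb.isOpen_image_of_injOn`), connected, `0 = g 0 ∈ V`.
`W η = A1 + A2 (φ (x0 + η⁻¹) - φ x0)⁻¹` (in Lean `W 0 = A1`) is continuous on `ℂ` (at `0`:
`‖x0 + η⁻¹‖ → ∞`, so `‖φ (..)‖ → ∞` since `φ` is a homeomorphism of the plane) and injective
(`A2 ≠ 0`; `φ` injective).  `W '' V` is connected and contains `W 0 = A1 ∈ V`.  It is disjoint from
`frontier V`: if `W η = ζ ∈ frontier V`, `η ∈ V`, then `ζ ≠ 0`, `x = x0 + ζ⁻¹ ∈ S`, `x ≠ x0`, so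
`ζ = (x - x0)⁻¹ = A1 + A2 (φ x - φ x0)⁻¹ = W ζ`, so `η = ζ`, which is impossible (`V` open).  Hence
`W '' V ⊆ V`.
Hypotheses: none. -/
def StNSW : Prop := ∀ (P : ℂ → ℂ) (φ : ℂ ≃ₜ ℂ) (x0 A1 A2 : ℂ) (S : Set ℂ),
  DifferentiableOn ℂ P D → InjOn P D → P 0 = 0 → (∀ u ∈ D, x0 * P u ≠ 1) → A2 ≠ 0 →
  (∀ x ∈ S, x ≠ x0 → (x - x0)⁻¹ = A1 + A2 * (φ x - φ x0)⁻¹) →
  (∀ η ∈ frontier ((fun u => P u / (1 - x0 * P u)) '' D), η ≠ 0 ∧ x0 + η⁻¹ ∈ S) →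
  A1 ∈ (fun u => P u / (1 - x0 * P u)) '' D →
  ∀ u ∈ D, A1 + A2 * (φ (x0 + (P u / (1 - x0 * P u))⁻¹) - φ x0)⁻¹ ∈
    (fun u => P u / (1 - x0 * P u)) '' D

/-- EQI (about 120 lines)
(`nq ν` intertwines the limit groups.)  Second clause of `Intw`: hEQP (2).  First clause:
`den (Ri γ) ξ ≠ 0` implies `den (Ri' γ) (nq ν ξ) ≠ 0` (hEQP (2)).  If `den (Ri γ) ξ = 0` and
`den (Ri' γ) (nq ν ξ) ≠ 0`: then `Ri γ 1 0 ≠ 0` (determinant), for `ξ' → ξ`, `ξ' ≠ ξ`: `‖mob (Ri γ) ξ'‖ → ∞`, so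
`‖nq ν (mob (Ri γ) ξ')‖ → ∞` (homeomorphism of the plane), but it is `mob (Ri' γ) (nq ν ξ')`, which
converges.  Third clause: `γ = 1`: both matrices are `1`.  `γ ≠ 1`: `Ri γ 1 0 ≠ 0` (hEQP (3)), so
`den (Ri γ)` has a zero, so `den (Ri' γ)` has one, so `Ri' γ 1 0 ≠ 0` (determinant).  Fourth clause: for each
`n`: `nq (N n) (cn (R n γ)) = cn (R' n γ)` (`Intw (R n γ) (R' n γ) (nq (N n))` by hINT), limit along `U`
(uniform convergence on balls, continuity of `nq ν`).  (2)-(3) follow: `PG (nq ν)` intertwines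
`jj (Ri γ)`, `jj (Ri' γ)` (hPGH; `nq ν 0 = 0` by `StEX`), and `den (jj (Ri γ)) (P u) ≠ 0` on `D` (hEQP).
Hypotheses: hEX hSUB hPGH hINT hEQP. -/
def StEQI : Prop := ∀ (Γ : Type) [Group Γ] (s : Γ →* SL) (F : Set ℂ) (h : ℂ → ℂ) (t0 : ℂ)
  (G : ℕ → (ℂ ≃ₜ ℂ)) (N : ℕ → ℂ → ℂ) (R R' : ℕ → Γ →* SL) (U : Ultrafilter ℕ) (P ν : ℂ → ℂ)
  (Ri Ri' : Γ →* SL),
  Fu s → ‖t0‖ < 1 → Sq s F h t0 G N R R' → Lm s h t0 G N R R' U P ν Ri Ri' →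
  (∀ γ, Intw (Ri γ) (Ri' γ) (nq ν)) ∧
  ∀ γ, ∀ u ∈ D, den (jj (Ri' γ)) (PG (nq ν) (P u)) ≠ 0 ∧
    PG (nq ν) (P (mob (jj (s γ)) u)) = mob (jj (Ri' γ)) (PG (nq ν) (P u))

/-- CNJ (about 250 lines)
(The Moebius map conjugates the groups.)  `y0 = nq ν x0`, `Q u = PG (nq ν) (P u)`.  Represent points of
the sphere by nonzero vectors up to factors, `ξ ∈ ℂ` by `(ξ,1)`, and `(P u)⁻¹` by `(1, P u)`.
`R = Ri γ = [[a,b],[c,d]]`, `R' = Ri' γ`, `J = [[0,1],[1,-x0]]`, `T = [[A1, A2 - A1 y0],[1,-y0]]` (determinants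
`-1`, `-A2`).  For all `x ∈ Sset`: `T (nq ν x, 1) ∥ J (x, 1)` (for `x ≠ x0` this is the hypothesis, for
`x = x0` both are multiples of `(1,0)`), `R (x,1) ∥ (mob R x, 1)` with `mob R x ∈ Sset` (hSIN), and
`R' (nq ν x, 1) ∥ (nq ν (mob R x), 1)` (hEQI).  So with `X = J R J⁻¹ T`, `Y = T R'` (`J⁻¹ = [[x0,1],[1,0]]`):
`X (nq ν x, 1) ∥ J R (x,1) ∥ J (mob R x, 1) ∥ T (nq ν (mob R x), 1) ∥ Y (nq ν x, 1)`.  There are three
distinct `x ∈ Sset` (hTR3 with `τ = 0, 1/2, 1`), so the quadratic polynomial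
`y ↦ ` (first entry of `X (y,1)`)(second of `Y (y,1)`) - (second of `X (y,1)`)(first of `Y (y,1)`) has three zeros
and vanishes identically; then also `X (1,y) ∥ Y (1,y)` for all `y` (homogeneous form).
For `u, v ∈ D` the hypothesis is `J (1, P v) ∥ T (1, Q u)` (`J (1,P) = (P, 1 - x0 P)`,
`T (1,Q) = (A1 + (A2 - A1 y0) Q, 1 - y0 Q)`).  By hEQP `R (1, P v) ∥ (1, P (mob (jj (s γ)) v))` and by hEQI
`R' (1, Q u) ∥ (1, Q (mob (jj (s γ)) u))`.  So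
`J (1, P (γ v)) ∥ J R (1, P v) = (J R J⁻¹) J (1, P v) ∥ X (1, Q u) ∥ Y (1, Q u) ∥ T (1, Q (γ u))`.
Denominators: `1 - x0 P ≠ 0` (hSNX), `1 - y0 Q ≠ 0` (`Q = 0`, or `Q⁻¹ = nq ν (P u)⁻¹ ≠ nq ν x0`).
Hypotheses: hEX hSUB hSNX hEQP hSIN hTR3 hEQI. -/
def StCNJ : Prop := ∀ (Γ : Type) [Group Γ] (s : Γ →* SL) (F : Set ℂ) (h : ℂ → ℂ) (t0 : ℂ)
  (G : ℕ → (ℂ ≃ₜ ℂ)) (N : ℕ → ℂ → ℂ) (R R' : ℕ → Γ →* SL) (U : Ultrafilter ℕ) (P ν : ℂ → ℂ)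
  (Ri Ri' : Γ →* SL),
  Fu s → FD s F → ‖t0‖ < 1 → Sq s F h t0 G N R R' → Lm s h t0 G N R R' U P ν Ri Ri' →
  ∀ x0 ∈ Sset U G, ∀ A1 A2 : ℂ, A2 ≠ 0 →
  (∀ x ∈ Sset U G, x ≠ x0 → (x - x0)⁻¹ = A1 + A2 * (nq ν x - nq ν x0)⁻¹) →
  (∀ u ∈ D, 1 - nq ν x0 * PG (nq ν) (P u) ≠ 0) ∧
  ∀ γ, ∀ u ∈ D, ∀ v ∈ D, P v / (1 - x0 * P v) =
      A1 + A2 * (PG (nq ν) (P u) / (1 - nq ν x0 * PG (nq ν) (P u))) →
    P (mob (jj (s γ)) v) / (1 - x0 * P (mob (jj (s γ)) v)) =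
      A1 + A2 * (PG (nq ν) (P (mob (jj (s γ)) u)) /
        (1 - nq ν x0 * PG (nq ν) (P (mob (jj (s γ)) u))))

/-- HAT (about 250 lines)
(The holomorphic self map.)  `e = nq (syX h t0)`, `g u = P u/(1 - x0 P u)`, `y0 = nq ν x0`.  For `v ∈ D` put
`w v = conj (e.symm (conj v)) ∈ D` (hEDD, hCOE) and `Qv = PG (nq ν) (P (w v))`, holomorphic in `v`
(`Lm.qhol`); `B v = A1 + A2 Qv/(1 - y0 Qv)` is holomorphic (hCNJ: denominator) and equals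
`A1 + A2 (nq ν (x0 + (g (w v))⁻¹) - nq ν x0)⁻¹` (if `P (w v) ≠ 0` then `x0 + (g (w v))⁻¹ = (P (w v))⁻¹` and
`Qv⁻¹ = nq ν (P (w v))⁻¹`; if `w v = 0` both are `A1`), so `B v ∈ g '' D` by hypothesis.  `g` is injective and
holomorphic on `D` with `deriv g ≠ 0`, so the inverse `gi : g '' D → D` is holomorphic
(`StRIJ`-type fact).  `Ac = gi ∘ B : D → D` holomorphic, `A z = conj (Ac (conj z))` holomorphic on `D`, `D → D`.
For `z ∈ D`, `u = conj z`: `w (conj (e z)) = u`, so with `v = Ac (conj (e z))`: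
`g v = A1 + A2 Q u/(1 - y0 Q u)`, `Q u = PG (nq ν) (P u)`; `z' = mob (s γ) z` has `conj z' = mob (jj (s γ)) u`
(hSUB), and hCNJ gives `g (mob (jj (s γ)) v) = A1 + A2 Q (conj z')/(1 - y0 Q (conj z'))`, that is
`Ac (conj (e z')) = mob (jj (s γ)) v`, so `A (e z') = conj (mob (jj (s γ)) v) = mob (s γ) (conj v) = mob (s γ) (A (e z))`.
Hypotheses: hEX hSYC hSUB hEDD hCOE hSNX hCNJ. -/
def StHAT : Prop := ∀ (Γ : Type) [Group Γ] (s : Γ →* SL) (F : Set ℂ) (h : ℂ → ℂ) (t0 : ℂ)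
  (G : ℕ → (ℂ ≃ₜ ℂ)) (N : ℕ → ℂ → ℂ) (R R' : ℕ → Γ →* SL) (U : Ultrafilter ℕ) (P ν : ℂ → ℂ)
  (Ri Ri' : Γ →* SL),
  Fu s → FD s F → Ab s h → ‖t0‖ < 1 → Sq s F h t0 G N R R' →
  Lm s h t0 G N R R' U P ν Ri Ri' →
  ∀ x0 ∈ Sset U G, ∀ A1 A2 : ℂ, A2 ≠ 0 →
  (∀ x ∈ Sset U G, x ≠ x0 → (x - x0)⁻¹ = A1 + A2 * (nq ν x - nq ν x0)⁻¹) →
  (∀ u ∈ D, A1 + A2 * (nq ν (x0 + (P u / (1 - x0 * P u))⁻¹) - nq ν x0)⁻¹ ∈
    (fun u => P u / (1 - x0 * P u)) '' D) →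
  ∃ A : ℂ → ℂ, DifferentiableOn ℂ A D ∧ MapsTo A D D ∧
    ∀ γ, ∀ z ∈ D, A (nq (syX h t0) (mob (s γ) z)) = mob (s γ) (A (nq (syX h t0) z))

/-- FIN (about 250 lines)
(The contradiction.)  `e = nq (syX h t0)` maps `D` onto `D` (hEDD, hCOE) and solves the Beltrami
equation with coefficient `m = syX h t0` (`StEX`); `H = h ∘ A ∘ e` solves it on `D` (`StPOS` with
`g = h ∘ A` on `W = D`; restrict `Sol` from `univ` to `D`): there are `a, b` with `WD D H a b`, `b = m a` almost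
everywhere on `D`.  `H (mob (s γ) z) = h (mob (s γ) (A (e z))) = H z + c γ`, so `u = H - h` is continuous and
invariant on `D`.  `χ` from hPUX.  Test function `φ1 = χ deriv h` (smooth, compact support in `D`;
`dzb φ1 = (dzb χ) deriv h`): `∫ H dzb φ1 = - ∫ b φ1` and `∫ h dzb φ1 = 0` (`h` is holomorphic on `D`: smooth
integration by parts, `∫ dzb (h φ1) = 0`), and hUNW with `V = u deriv h`
(`deriv h (mob (s γ) z) = den² deriv h z`): `∫ u deriv h dzb χ = 0`.  So `∫ b χ deriv h = 0`; on `D ∖ {0}`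
`m deriv h = conj t0 conj (deriv h)` (hCOE), so (`t0 ≠ 0`) `∫ a χ conj (deriv h) = 0`.
Test function `φ2 = χ conj (deriv h)` (`dz φ2 = (dz χ) conj (deriv h)`):
`∫ H dz φ2 = - ∫ a φ2`, `∫ h dz φ2 = - ∫ deriv h φ2`, hUNW second item with `V = u conj (deriv h)`:
`∫ u conj (deriv h) dz χ = 0`.  So `∫ a χ conj (deriv h) = ∫ χ ‖deriv h‖²`.  Hence
`∫ χ ‖deriv h‖² = 0`; but `χ ≥ 0` is continuous, and `deriv h` is not identically zero on `D`, its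
zeros are isolated, and `χ` is positive on a nonempty open set: contradiction.
Hypotheses: hEX hPOS hSYC hSUB hEDD hCOE hPUX hUNW. -/
def StFIN : Prop := ∀ (Γ : Type) [Group Γ] (s : Γ →* SL) (F : Set ℂ) (h : ℂ → ℂ) (t0 : ℂ),
  Fu s → FD s F → Ab s h → 0 < ‖t0‖ → ‖t0‖ < 1 → ∀ A : ℂ → ℂ, DifferentiableOn ℂ A D →
  MapsTo A D D →
  (∀ γ, ∀ z ∈ D, A (nq (syX h t0) (mob (s γ) z)) = mob (s γ) (A (nq (syX h t0) z))) → False

/-- CTR (about 120 lines)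
(There is no sequence.)  `C` from `StNID` (`R = 1`); `τ0 = min (1/2) (1/(1600 (C+1)))` (`C ≥ 0` may be
assumed).  Given `Sq`, take `Lm` from hLIM.  hQUA and hMB1 (`S = Sset U G`, `φ = nq ν`).  hTR3: points `w, x, y` of
`Sset` with real parts `0, 1/2, 1`; they are in `closedBall 0 1` (hSNE) at distances `≥ 1/2`.  `A1, A2` from hMB1 at
`w`; `‖nq ν x - x‖ ≤ C ‖t0‖ ≤ 1/1600` etc. (`StNID`, `k = ‖t0‖`), so `‖A1‖ < 1/2` (hSMA).  `A1 ∈ g '' D`,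
`g u = P u/(1 - w P u)`: `A1 = 0 = g 0`, or `ξ = w + A1⁻¹` has norm `> 1`, `ξ⁻¹ = P u` (hOUT), `g u = (ξ - w)⁻¹ = A1`.
hBDS, hSNX and hNSW give the hypothesis of hHAT; hHAT and hFIN give the contradiction.
Hypotheses: hNID hLIM hSNE hSNX hQUA hMB1 hBDS hOUT hTR3 hSMA hNSW hHAT hFIN. -/
def StCTR : Prop := ∃ τ0 : ℝ, 0 < τ0 ∧ ∀ (Γ : Type) [Group Γ] (s : Γ →* SL) (F : Set ℂ)
  (h : ℂ → ℂ) (t0 : ℂ) (G : ℕ → (ℂ ≃ₜ ℂ)) (N : ℕ → ℂ → ℂ) (R R' : ℕ → Γ →* SL),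
  Fu s → FD s F → Ab s h → 0 < ‖t0‖ → ‖t0‖ ≤ τ0 → ‖t0‖ < 1 → Sq s F h t0 G N R R' → False

end Pool.Agent.Helper61.QE
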