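import Pool.Agent.Helper61.QE.St3
import Pool.Agent.Helper80.Bieb.Main

/-!
# Project QD, PART E, statements, file 4: area theorem, exact identity, holomorphy in `t`
-/

open MeasureTheory Set Filter Topology Complex
open scoped ContDiff ComplexConjugate ENNReal

namespace Pool.Agent.Helper61.QE

open Pool.Agent.Helper68.QC

/-- The conformal map `f_t` of the disc onto the end `Y`. -/
noncomputable def ft (κ h : ℂ → ℂ) (t z : ℂ) : ℂ := nq (muT κ h t) ((nq (syY κ)).symm z)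

/-- CVH (about 60 lines)
(Change of variables for injective holomorphic maps.)
`MeasureTheory.lintegral_image_eq_lintegral_abs_det_fderiv_mul` with the real derivative of `f`, whose
determinant is `‖deriv f z‖²` (`Pool.Agent.Helper80.Bieb.det_mul`, or `det_fderiv` in
Pool/Agent/Helper68/QC/Cal.lean with `dz f = deriv f`, `dzb f = 0`).
Hypotheses: none. -/
def StCVH : Prop := ∀ (V S : Set ℂ) (f : ℂ → ℂ), IsOpen V → DifferentiableOn ℂ f V → S ⊆ V →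
  MeasurableSet S → InjOn f S → ∀ g : ℂ → ℝ≥0∞,
  ∫⁻ ξ in f '' S, g ξ = ∫⁻ z in S, g (f z) * ENNReal.ofReal (‖deriv f z‖ ^ 2)

/-- ATR (about 200 lines)
(Area of a ring.)  `‖-(z²)⁻¹ + k' z‖² = ‖z‖⁻⁴ + ‖k' z‖² - 2 re (conj (z⁻²) k' z)` and
`conj (z⁻²) = z²/‖z‖⁴`; in polar coordinates the mean of `re (z² k' z)` over each circle about `0` is `0`
(`z² k'` is holomorphic and vanishes at `0`).  First for the ring `ρ < ‖z‖ < s < 1` (everything bounded; compare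
`area_lower` and its proof in Pool/Agent/Helper80/Bieb/AreaLower.lean, where polar coordinates are
used): both sides equal with `π (1/ρ² - 1/s²)`; then `s → 1` by monotone convergence.
Hypotheses: none. -/
def StATR : Prop := ∀ (k : ℂ → ℂ), DifferentiableOn ℂ k D → ∀ ρ : ℝ, 0 < ρ → ρ < 1 →
  ∫⁻ z in {z : ℂ | ρ < ‖z‖ ∧ ‖z‖ < 1}, ENNReal.ofReal (‖-(z ^ 2)⁻¹ + deriv k z‖ ^ 2) =
    ENNReal.ofReal (Real.pi * (1 / ρ ^ 2 - 1)) +
    ∫⁻ z in {z : ℂ | ρ < ‖z‖ ∧ ‖z‖ < 1}, ENNReal.ofReal (‖deriv k z‖ ^ 2)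

/-- ATC (about 200 lines)
(The complement of the image of a small punctured disc.)  `FF b T z = z⁻¹ + b z + z² T z`, `Amap`, `Bmap`
from Pool/Agent/Helper80/Bieb (AreaUpper, Area); `c = b ρ²`, `‖c‖ ≤ 1/2`, `C = (FF b T '' (closedBall 0 ρ ∖ {0}))ᶜ`.
Outer inclusion `C ⊆ Amap c '' closedBall 0 (ρ⁻¹ + 2 ρ² M)`: exactly as in the proof of
`Pool.Agent.Helper80.Bieb.FF_subset` (lemma `cover` applied to `Bmap c ∘ FF b T` on `closedBall 0 ρ`: on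
`‖z‖ = ρ` one has `z⁻¹ + b z = Amap c z⁻¹`, so `‖Bmap c (FF b T z)‖ ≤ ρ⁻¹ + 2 ρ² M`).
Inner inclusion `Amap c '' ball 0 (ρ⁻¹ - 2 ρ² M) ⊆ C`: for `0 < ‖z‖ = τ ≤ ρ`,
`(1-‖c‖²) Bmap c (z⁻¹ + b z) = z⁻¹ + b (z - ρ²/conj z) - ‖b‖² ρ² conj z` has modulus
`≥ 1/τ - ‖b‖ (ρ²-τ²)/τ - ‖b‖² ρ² τ = (1-‖b‖ρ²)/τ + ‖b‖ τ - ‖b‖² ρ² τ`, which is decreasing in `τ` on
`(0, ρ]` (derivative `(1-‖b‖ρ²)(‖b‖ - 1/τ²) ≤ 0`) with value `(1-‖c‖²)/ρ` at `τ = ρ`; so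
`‖Bmap c (FF b T z)‖ ≥ ρ⁻¹ - 2 ρ² M` (`norm_Bmap`), and `Bmap (Amap ξ) = ξ`.
Volumes: the determinant of `Amap c` is `1 - ‖c‖²` (`det_Amap`), so the volume of the image of a disc of
radius `r` is `(1-‖c‖²) π r²` (`MeasureTheory.Measure.addHaar_image_continuousLinearMap`,
`Complex.volume_ball`).
Hypotheses: none. -/
def StATC : Prop := ∀ (b : ℂ) (T : ℂ → ℂ) (M ρ : ℝ), DifferentiableOn ℂ T D →
  InjOn (Pool.Agent.Helper80.Bieb.FF b T) (D \ {0}) → (∀ z : ℂ, ‖z‖ ≤ 1 / 2 → ‖T z‖ ≤ M) →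
  0 < ρ → ρ ≤ 1 / 2 → ‖b‖ * ρ ^ 2 ≤ 1 / 2 → 2 * ρ ^ 2 * M ≤ ρ⁻¹ →
  ENNReal.ofReal ((1 - (‖b‖ * ρ ^ 2) ^ 2) * Real.pi * (ρ⁻¹ - 2 * ρ ^ 2 * M) ^ 2) ≤
    volume (Pool.Agent.Helper80.Bieb.FF b T '' (Metric.closedBall 0 ρ \ {0}))ᶜ ∧
  volume (Pool.Agent.Helper80.Bieb.FF b T '' (Metric.closedBall 0 ρ \ {0}))ᶜ ≤
    ENNReal.ofReal ((1 - (‖b‖ * ρ ^ 2) ^ 2) * Real.pi * (ρ⁻¹ + 2 * ρ ^ 2 * M) ^ 2)

/-- ATZ (about 200 lines)
(The area theorem, exact form.)  Replacing `k` by `k - k 0` translates the image: assume `k 0 = 0`,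
`k z = b z + z² T z`, `T` holomorphic on `D` (`dslope` twice), `M` a bound of `T` on `closedBall 0 (1/2)`;
`g = z⁻¹ + k = FF b T` on `D ∖ {0}`.  Let `E = (g '' (D ∖ {0}))ᶜ`.  For small `ρ` the set
`C = (g '' (closedBall 0 ρ ∖ {0}))ᶜ` is the disjoint union of `E` and of `g '' {ρ < ‖z‖ < 1}` (injectivity), and
`volume (g '' ring) = ∫⁻ ring ‖g'‖²` (hCVH) `= π (1/ρ² - 1) + ∫⁻ ring ‖k'‖²` (hATR; `g' = -(z²)⁻¹ + k'`).  So
`volume E + ∫⁻ ring ‖k'‖² = volume C - π (1/ρ² - 1)`, and by hATC this tends to `π` as `ρ → 0`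
(`(1 - ‖b‖²ρ⁴) π (ρ⁻¹ ± 2ρ²M)² = π/ρ² + O(ρ)`); `∫⁻ ring ‖k'‖² → ∫⁻ D ‖k'‖²` (monotone convergence; the
point `0` is a null set).
Hypotheses: hCVH hATR hATC. -/
def StATZ : Prop := ∀ (k : ℂ → ℂ), DifferentiableOn ℂ k D →
  InjOn (fun u => u⁻¹ + k u) (D \ {0}) →
  volume ((fun u => u⁻¹ + k u) '' (D \ {0}))ᶜ + ∫⁻ u in D, ENNReal.ofReal (‖deriv k u‖ ^ 2) =
    ENNReal.ofReal Real.pi

/-- AT (about 250 lines)
(The area theorem at the point `ζ`.)  `φ u = (u + ζ)/(1 + conj ζ u)` is a holomorphic bijection of `D` with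
`φ 0 = ζ`, `φ' 0 = 1 - ‖ζ‖²`.  `p = deriv f ζ (1 - ‖ζ‖²) ≠ 0`.  `g u = p/(f (φ u) - f ζ)` is injective on
`D ∖ {0}` and `g u = u⁻¹ + k u` with `k` holomorphic on `D` (`f (φ u) - f ζ = p u (1 + O(u))`, zero free on
`D ∖ {0}`; `k` = removable singularity).  hATZ.  (1) `(g '' (D ∖ {0}))ᶜ` is the union of `{0}` and of the
image of `(f '' D)ᶜ` under the injective map `ξ ↦ p/(ξ - f ζ)` (`f ζ ∈ f '' D`), whose derivative is
`-p/(ξ - f ζ)²`; hCVH on the open set `{f ζ}ᶜ`: its volume is `‖p‖² ∫⁻ ξ in (f '' D)ᶜ, ‖ξ - f ζ‖⁻⁴`.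
(2) `k u` as a function of `w = φ u`: `u⁻¹ = (1 - conj ζ w)/(w - ζ)`, with derivative
`-(1-‖ζ‖²)/(w - ζ)²` in `w`; so `k' u = -(1-‖ζ‖²) (dKern f w ζ) φ' u`, and
`∫⁻ D ‖k'‖² = (1-‖ζ‖²)² ∫⁻ D ‖dKern f w ζ‖²` (hCVH for `φ`).  Divide by `(1-‖ζ‖²)²`.
Hypotheses: hCVH hATZ. -/
def StAT : Prop := ∀ (f : ℂ → ℂ), DifferentiableOn ℂ f D → InjOn f D → ∀ ζ ∈ D,
  ENNReal.ofReal (‖deriv f ζ‖ ^ 2) *
      (∫⁻ ξ in (f '' D)ᶜ, ENNReal.ofReal (‖ξ - f ζ‖⁻¹ ^ 4)) +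
    ∫⁻ z in D, ENNReal.ofReal (‖dKern f z ζ‖ ^ 2) =
    ENNReal.ofReal (Real.pi / (1 - ‖ζ‖ ^ 2) ^ 2)

/-- RIE (about 120 lines)
(The maps `f_t`.)  `muT κ h t` is `Bel (max k ‖t‖)` with `max k ‖t‖ < 1`, equal to `syY κ` on `D` (hCOE), so
`nq (muT κ h t)` (a `Sol` of `muT κ h t` on `univ` by `StEX`) is a `Sol` of `syY κ` on `D` (restriction of test
functions); `StFAC` with `μ = syY κ`, `U = D`: `ft κ h t` is holomorphic on `nq (syY κ) '' D = D` (hEDD, hCOE).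
Injective (composition of homeomorphisms), so `deriv ≠ 0`
(`Pool.Agent.Helper80.Bieb`-type fact or `StRIJ` of helper20: an injective holomorphic function has no
critical point).  `ft κ h t '' D = nq (muT κ h t) '' D` and, with `e = nq (syY κ)`,
`ft κ h t '' (e '' F) = nq (muT κ h t) '' F`; `e '' F` is measurable and contained in `closedBall 0 r'`, `r' < 1`
(image of the compact set `closedBall 0 r ⊆ D`).
Hypotheses: hEX hFAC hSYC hSUB hEDD hCOE. -/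
def StRIE : Prop := ∀ (Γ : Type) [Group Γ] (s : Γ →* SL) (F : Set ℂ) (h κ : ℂ → ℂ) (k : ℝ),
  Fu s → FD s F → Ab s h → k < 1 → Kap s k κ →
  (MeasurableSet (nq (syY κ) '' F) ∧ ∃ r' < 1, ∀ z ∈ nq (syY κ) '' F, ‖z‖ ≤ r') ∧
  ∀ t ∈ D, DifferentiableOn ℂ (ft κ h t) D ∧ InjOn (ft κ h t) D ∧
    (∀ z ∈ D, deriv (ft κ h t) z ≠ 0) ∧ ft κ h t '' D = nq (muT κ h t) '' D ∧
    ft κ h t '' (nq (syY κ) '' F) = nq (muT κ h t) '' F ∧
    Continuous (ft κ h t)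

/-- EID (about 150 lines)
(The exact identity.)  `f = ft κ h t`, `S = nq (syY κ) '' F` (relatively compact in `D`, hRIE).  hCVH:
`En F (muT κ h t) = ∫⁻ ζ in S, ofReal (‖deriv f ζ‖²) ∫⁻ ξ in nq (muT κ h t) '' Dx, ‖ξ - f ζ‖⁻⁴`.  The set
`(f '' D)ᶜ = nq (muT κ h t) '' Dᶜ` is the union of `nq (muT κ h t) '' Dx` and of the image of the unit
circle, a null set (`StNUL`).  hAT for each `ζ ∈ S` and `lintegral_add` (measurability of
`ζ ↦ ofReal (‖deriv f ζ‖²) * ∫⁻ ..` by `Measurable.lintegral_prod_right`).  The right side is finite: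
`π/(1-r'²)²` times the volume of `S`.
Hypotheses: hEX hNUL hCVH hAT hRIE hCOE hSUB. -/
def StEID : Prop := ∀ (Γ : Type) [Group Γ] (s : Γ →* SL) (F : Set ℂ) (h κ : ℂ → ℂ) (k : ℝ),
  Fu s → FD s F → Ab s h → k < 1 → Kap s k κ →
  ∫⁻ ζ in nq (syY κ) '' F, ENNReal.ofReal (Real.pi / (1 - ‖ζ‖ ^ 2) ^ 2) ≠ ⊤ ∧
  ∀ t ∈ D, En F (muT κ h t) +
    ∫⁻ ζ in nq (syY κ) '' F, ∫⁻ z in D, ENNReal.ofReal (‖dKern (ft κ h t) z ζ‖ ^ 2) =
    ∫⁻ ζ in nq (syY κ) '' F, ENNReal.ofReal (Real.pi / (1 - ‖ζ‖ ^ 2) ^ 2)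

/-- HDV (about 120 lines)
(The derivative in `z` is holomorphic in `t`.)  Fix `z ∈ D`, `ρ < 1` with `‖z‖ < ρ`.  For `‖t‖ < ρ`
Cauchy's formula on a small circle `∂B` about `z` inside `ball 0 ρ`:
`deriv (f t) z = (2πi)⁻¹ ∮ f t w (w - z)⁻² dw`.  The integrand is holomorphic in `t` and bounded by a constant
for `‖t‖ ≤ ρ`; differentiate under the integral sign
(`hasDerivAt_integral_of_dominated_loc_of_deriv_le`; the `t`-derivative is bounded by the Cauchy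
estimate and measurable in `w`, being a limit of difference quotients), or: the integral of a
holomorphic family is holomorphic by Morera / as a locally uniform limit of Riemann sums.
Hypotheses: none. -/
def StHDV : Prop := ∀ f : ℂ → ℂ → ℂ, (∀ t ∈ D, DifferentiableOn ℂ (f t) D) →
  (∀ z ∈ D, DifferentiableOn ℂ (fun t => f t z) D) →
  (∀ ρ < 1, ∃ C : ℝ, ∀ t z : ℂ, ‖t‖ ≤ ρ → ‖z‖ ≤ ρ → ‖f t z‖ ≤ C) →
  ∀ z ∈ D, DifferentiableOn ℂ (fun t => deriv (f t) z) D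

/-- HOT (about 120 lines)
(The Grunsky kernel is holomorphic in `t`.)  `ft κ h t z = nq (muT κ h t) (e.symm z)`, `e = nq (syY κ)`: holomorphic in
`t` on every disc `ball 0 ρ`, `ρ < 1` (`StHOL` with `k' = max k ρ`, hCOE; `muT κ h t z` is affine in `t`),
bounded for `‖t‖ ≤ ρ`, `‖z‖ ≤ 1` (`StGRO`; `‖e.symm z‖ ≤ 1` by hEDD).  hHDV: `deriv (ft κ h t) z` is holomorphic in `t`.
For `z ≠ ζ`, `ft κ h t z ≠ ft κ h t ζ`; for `z = ζ` the kernel is `0` in Lean.  Measurable in `(z, ζ)`: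
`measurable_deriv`, `ft κ h t` continuous.
Hypotheses: hEX hHOL hGRO hFAC hSYC hSUB hEDD hCOE hRIE hHDV. -/
def StHOT : Prop := ∀ (Γ : Type) [Group Γ] (s : Γ →* SL) (F : Set ℂ) (h κ : ℂ → ℂ) (k : ℝ),
  Fu s → FD s F → Ab s h → k < 1 → Kap s k κ →
  (∀ z ∈ D, ∀ ζ ∈ D, DifferentiableOn ℂ (fun t => dKern (ft κ h t) z ζ) D) ∧
  ∀ t ∈ D, Measurable (fun x : ℂ × ℂ => dKern (ft κ h t) x.2 x.1)

/-- AB1 (about 250 lines)
(Holomorphic families in `L²`, part 1.)  `v p = ∫ ‖U p x‖²`.  `G t = ∫ conj (U p x) U t x dm` is holomorphic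
on `D`: near `t0 ∈ D` let `closedBall t0 (2δ) ⊆ D`; for `‖t - t0‖ ≤ δ` the mean value property on discs gives
`‖U t x‖² ≤ (π δ²)⁻¹ ∫_(‖s - t0‖ ≤ 2δ) ‖U s x‖² ds =: Φ x ²`, and `‖∂_t U t x‖ ≤ C_δ Φ x` by Cauchy; `Φ²` is
integrable (Tonelli; `(s, x) ↦ U s x` is jointly measurable on `closedBall t0 (2δ) × X` because it is
continuous in `s` and measurable in `x`: `measurable_uncurry_of_continuous_of_measurable` for the
family composed with the projection onto the closed ball), so `conj (U p x) Φ x` is integrable and one can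
differentiate under the integral (`hasDerivAt_integral_of_dominated_loc_of_deriv_le`).
Conclusion: for `p ∈ D` the holomorphic function `A + v p - 2 G t` has real part
`A - v t + ∫ ‖U t x - U p x‖² ≥ A - v t`, with equality at `t = p`; and `A - v ≥ 0`.
Hypotheses: none. -/
def StAB1 : Prop := ∀ (X : Type) [MeasurableSpace X] (m : Measure X) [SigmaFinite m]
  (U : ℂ → X → ℂ) (A : ℝ), 0 ≤ A → (∀ t ∈ D, Measurable (U t)) →
  (∀ x, DifferentiableOn ℂ (fun t => U t x) D) →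
  (∀ t ∈ D, ∫⁻ x, ENNReal.ofReal (‖U t x‖ ^ 2) ∂m ≤ ENNReal.ofReal A) →
  Pool.Agent.Helper69.QC.Maj (fun t => A - ∫ x, ‖U t x‖ ^ 2 ∂m) ∧
  ∀ p ∈ D, DifferentiableOn ℂ (fun t => ∫ x, conj (U p x) * U t x ∂m) D

/-- AB2 (about 200 lines)
(Part 2.)  `v t = ∫ ‖U t x‖²` is continuous on `D` (`‖√v t - √v s‖ ≤ ‖U t - U s‖_2`, which tends to `0`: dominated
convergence with the bound of hAB1's proof; or: `A - v` is `Maj`, hence continuous on `D`,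
`Pool.Agent.Helper69.QC.St_HAR`).  `‖U t x - U 0 x‖² = ‖U t x‖² - 2 re (conj (U 0 x) U t x) + ‖U 0 x‖²`; integrate over
`x`: `w t := ∫ ‖U t x - U 0 x‖² = v t - 2 re (G t) + v 0`, `G t = ∫ conj (U 0 x) U t x` holomorphic on `D` (hAB1),
`G 0 = v 0`; circle average: `circleAverage w 0 r = circleAverage v 0 r - v 0`.
For `‖t‖ ≤ r/2` and each `x`: `W s = U s x - U 0 x` is holomorphic, so `‖W t‖² ≤ 3 circleAverage (‖W s‖²) 0 r`
(Poisson integral for the holomorphic function `W²`: kernel `≤ (r+‖t‖)/(r-‖t‖) ≤ 3`;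
`Pool.Agent.Helper69.QC` has such statements; or Cauchy's formula for `W²` gives the factor
`r/(r - ‖t‖) ≤ 2`: `W t ² = (2πi)⁻¹ ∮ W s ²/(s - t) ds`).  Integrate over `x` and exchange (Tonelli, joint
measurability as in hAB1): `w t ≤ 3 circleAverage w 0 r`.
Hypotheses: hAB1. -/
def StAB2 : Prop := ∀ (X : Type) [MeasurableSpace X] (m : Measure X) [SigmaFinite m]
  (U : ℂ → X → ℂ) (A : ℝ), 0 ≤ A → (∀ t ∈ D, Measurable (U t)) →
  (∀ x, DifferentiableOn ℂ (fun t => U t x) D) →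
  (∀ t ∈ D, ∫⁻ x, ENNReal.ofReal (‖U t x‖ ^ 2) ∂m ≤ ENNReal.ofReal A) →
  ∀ r : ℝ, 0 < r → r < 1 → ∀ t : ℂ, ‖t‖ ≤ r / 2 →
  ∫⁻ x, ENNReal.ofReal (‖U t x - U 0 x‖ ^ 2) ∂m ≤
    ENNReal.ofReal (4 * (Real.circleAverage (fun t => ∫ x, ‖U t x‖ ^ 2 ∂m) 0 r -
      ∫ x, ‖U 0 x‖ ^ 2 ∂m))

/-- PE1 (about 150 lines)
(Superharmonicity of the energy.)  `X = ℂ × ℂ`, `m = (volume.restrict S).prod (volume.restrict D)`,
`S = nq (syY κ) '' F`, `A = (∫⁻ ζ in S, ofReal (π/(1-‖ζ‖²)²)).toReal` (finite by hEID), and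
`U t x = dKern (ft κ h t) x.2 x.1` if `x ∈ D × D`, `0` otherwise (holomorphic in `t ∈ D` for every `x`,
measurable: hHOT; `m` is concentrated on `S × D ⊆ D × D`).  By hEID and `lintegral_prod`:
`∫⁻ ofReal (‖U t x‖²) dm ≤ ofReal A`, and
`Et F κ h t = A - ∫ ‖U t x‖² dm` for `t ∈ D` (all terms finite; `integral_eq_lintegral_of_nonneg_ae`).
hAB1 gives `Maj` (only the values for `t ∈ D` matter in `Maj`), hAB2 the last item
(`circleAverage (Et) 0 r = A - circleAverage v 0 r`).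
Hypotheses: hEID hHOT hAB1 hAB2. -/
def StPE1 : Prop := ∀ (Γ : Type) [Group Γ] (s : Γ →* SL) (F : Set ℂ) (h κ : ℂ → ℂ) (k : ℝ),
  Fu s → FD s F → Ab s h → k < 1 → Kap s k κ →
  Pool.Agent.Helper69.QC.Maj (Et F κ h) ∧ (∀ t ∈ D, En F (muT κ h t) ≠ ⊤) ∧
  (∀ t ∈ D, En F (muT κ h t) ≤
    ∫⁻ ζ in nq (syY κ) '' F, ENNReal.ofReal (Real.pi / (1 - ‖ζ‖ ^ 2) ^ 2)) ∧
  ∀ r : ℝ, 0 < r → r < 1 → ∀ t : ℂ, ‖t‖ ≤ r / 2 →
    ∫⁻ ζ in nq (syY κ) '' F, ∫⁻ z in D,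
      ENNReal.ofReal (‖dKern (ft κ h t) z ζ - dKern (ft κ h 0) z ζ‖ ^ 2) ≤
    ENNReal.ofReal (4 * (Et F κ h 0 - Real.circleAverage (Et F κ h) 0 r))

end Pool.Agent.Helper61.QE
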