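import Pool.Agent.Helper61.QE.St4
import Pool.Agent.Helper86.QA.St5

/-!
# Project QD, PART E, statements, file 5: reduction to a sequence, bounds, final theorems
-/

open MeasureTheory Set Filter Topology Complex
open scoped ContDiff ComplexConjugate ENNReal

namespace Pool.Agent.Helper61.QE

open Pool.Agent.Helper68.QC

/-- TRF (about 150 lines)
(Transfer to the plane.)  `w0 = nq κ = nq (muT κ h 0)` (`0 * nuT = 0`), `wt = nq (muT κ h t)`, `Φ = wt ∘ w0.symm`, `e = nq (syY κ)`;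
`ft κ h t = Φ ∘ ft κ h 0`, `f0 := ft κ h 0` maps `D` onto `w0 '' D` and `e '' F` onto `w0 '' F` (hRIE), holomorphic
with `deriv ≠ 0`, so `Φ = ft κ h t ∘ f0⁻¹` is holomorphic on the open set `w0 '' D` with
`deriv (ft κ h t) z = deriv Φ (f0 z) deriv f0 z`.  Hence for `z ≠ ζ` in `D`:
`dKern (ft κ h t) z ζ - dKern f0 z ζ = deriv f0 z * deriv f0 ζ * dKern Φ (f0 z) (f0 ζ)` (both sides `0` for
`z = ζ`), and `dKern` is symmetric.  hCVH in both variables.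
Hypotheses: hCVH hRIE hEX. -/
def StTRF : Prop := ∀ (Γ : Type) [Group Γ] (s : Γ →* SL) (F : Set ℂ) (h κ : ℂ → ℂ) (k : ℝ),
  Fu s → FD s F → Ab s h → k < 1 → Kap s k κ → ∀ t ∈ D,
  DifferentiableOn ℂ (fun y => nq (muT κ h t) ((nq κ).symm y)) (nq κ '' D) ∧
  ∫⁻ ζ in nq (syY κ) '' F, ∫⁻ z in D,
      ENNReal.ofReal (‖dKern (ft κ h t) z ζ - dKern (ft κ h 0) z ζ‖ ^ 2) =
    ∫⁻ a in nq κ '' F, ∫⁻ b in nq κ '' D,
      ENNReal.ofReal (‖dKern (fun y => nq (muT κ h t) ((nq κ).symm y)) a b‖ ^ 2)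

/-- RPH (about 150 lines)
(The deformed groups.)  There are homomorphisms `ρ, ρt` with `Intw (s γ) (ρ γ) (nq κ)`,
`Intw (s γ) (ρt γ) (nq (muT κ h t))`.  Use `StREP`.  First for `μ τ = τ • κ` (`fun z => τ * κ z`) on the disc of centre
`0` and radius `r' > 1` with `k r' < 1` (`k ≥ 0` because `Bel`): `μ 0 = 0`, `nq 0 = id` (`StUNI` with
`w = Homeomorph.refl ℂ`, which is a `Sol` of `0`), `Intw (s γ) (s γ) id`; take `ρ = ρ' 1`.  Then
for `μ τ = muT κ h τ` on the disc of centre `0` and radius `r'` with `‖t‖ < r' < 1` (hCOE: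
`Bel (max k r')`, invariance), `muT κ h 0 = κ`, `σ = ρ`; take `ρt = ρ'' t`.
Hypotheses: hEX hUNI hREP hSUB hCOE. -/
def StRPH : Prop := ∀ (Γ : Type) [Group Γ] (s : Γ →* SL) (h κ : ℂ → ℂ) (k : ℝ),
  Fu s → Ab s h → k < 1 → Kap s k κ → ∀ t ∈ D, ∃ ρ ρt : Γ →* SL,
  (∀ γ, Intw (s γ) (ρ γ) (nq κ)) ∧ ∀ γ, Intw (s γ) (ρt γ) (nq (muT κ h t))

/-- SQ1 (about 300 lines)
(One member of the sequence.)  `w0 = nq κ`, `wt = nq (muT κ h t0)`.  `λ = w0 q`, where `q` maximises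
`‖w0 z‖` over `closedBall 0 1`; `‖λ‖ ≥ ‖w0 1‖ = 1`.  `G = λ⁻¹ w0` (`Homeomorph.mulLeft₀`).  `Gd 1 G`: clear; `hol`: `StCNF`
with `U = Dx` (`κ = 0` there).  `StCMP` for `μ = muT κ h t0`, `κ`, `δ = ‖t0‖` (on `D` both are equal, outside `κ = 0`
and `‖muT‖ ≤ ‖t0‖`): `wt = nq ν ∘ w0`, `Bel ‖t0‖ ν`, and `ν = 0` almost everywhere on `w0 '' D` (the last
item of `StCMP` on `D`, where `‖1 - conj κ μ‖ ≠ 0`, and `StNUL` for the image of the exceptional set).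
`c = nq ν λ ≠ 0`, `N z = ν (λ z) * (conj λ/λ)`: `z ↦ nq ν (λ z)/c` is a homeomorphism fixing `0`, `1` and a `Sol` of
`N` (`StPRE` with `φ z = λ z`, `StPOS` with `g y = y/c`), so it is `nq N` (`StUNI`, empty exceptional set);
`Bel ‖t0‖ N`; `N = 0` a.e. on `G '' D = λ⁻¹ (w0 '' D)`.  `nq N (G z) = nq ν (w0 z)/c = wt z/c`.
Groups: with `ρ, ρt` of hRPH and `m` a square root of `λ`: `R γ = diag (m⁻¹, m) ρ γ diag (m, m⁻¹)`, so that
`Intw (ρ γ) (R γ) (fun y => y/λ)` (check) and `Intw (s γ) (R γ) G` (hINT); the same with `c` for `R'`.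
`phol`: `wt` is a `Sol` of `muT κ h t0` on `Dx`, which equals `syX h t0` there (hCOE), so `StFAC` gives that
`wt ∘ (nq (syX h t0)).symm` is holomorphic on `nq (syX h t0) '' Dx = Dx` (hEDD); divide by `c`.
Integrals: `nq N x = Φ (λ x)/c` with `Φ = wt ∘ w0.symm`: `dKern (nq N) x y = λ² dKern Φ (λ x) (λ y)` for
`x, y ∈ G '' D`; substitute `a = λ x`, `b = λ y` (area factor `‖λ‖²` each;
`MeasureTheory.Measure.lintegral_comp_smul`-type lemma or hCVH for the linear map); the same for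
`‖ξ - a‖⁻⁴`.
Hypotheses: hEX hUNI hCNF hFAC hCMP hPRE hPOS hNUL hSYC hSUB hINT hEDD hCOE hCVH hTRF hRPH. -/
def StSQ1 : Prop := ∀ (Γ : Type) [Group Γ] (s : Γ →* SL) (F : Set ℂ) (h κ : ℂ → ℂ) (k : ℝ),
  Fu s → FD s F → Ab s h → k < 1 → Kap s k κ → ∀ t0 ∈ D,
  ∃ (G : ℂ ≃ₜ ℂ) (N : ℂ → ℂ) (R R' : Γ →* SL), Gd 1 G ∧ (∀ γ, Intw (s γ) (R γ) G) ∧
    Bel ‖t0‖ N ∧ (∀ᵐ z ∂(volume.restrict (G '' D)), N z = 0) ∧
    (∀ γ, Intw (s γ) (R' γ) (fun z => nq N (G z))) ∧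
    DifferentiableOn ℂ (fun w => nq N (G ((nq (syX h t0)).symm w))) Dx ∧
    ∫⁻ a in G '' F, ∫⁻ b in G '' D, ENNReal.ofReal (‖dKern (nq N) a b‖ ^ 2) =
      ∫⁻ a in nq κ '' F, ∫⁻ b in nq κ '' D,
        ENNReal.ofReal (‖dKern (fun y => nq (muT κ h t0) ((nq κ).symm y)) a b‖ ^ 2) ∧
    ∫⁻ a in G '' F, ∫⁻ ξ in G '' Dx, ENNReal.ofReal (‖ξ - a‖⁻¹ ^ 4) = En F κ

/-- SWP (about 250 lines)
(Exchange of the fundamental domains.)  `E' = G '' (rf '' (F ∖ {0}))`.  For `z ∈ Dx` outside a countable set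
there is exactly one `γ` with `mob (s γ) z ∈ rf '' (F ∖ {0})`: apply `FD` to `rf z ∈ D`
(`mob (s γ) z = rf (mob (s γ) (rf z))` by hSUB; exclude the countably many `z` with `mob (s γ) (rf z) = 0` for some
`γ`).  So up to a countable set `G '' Dx` is the disjoint union of the measurable sets
`mob (R γ⁻¹) '' E'`, and by the change of variables `mob (R γ⁻¹)` (hSUB derivative, injective, hCVH)
`∫⁻ ξ in G '' Dx, k (ξ, a) = ∑' γ, ∫⁻ ξ' in E', k (mob (R γ⁻¹) ξ', a) ‖den (R γ⁻¹) ξ'‖⁻⁴` with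
`k (ξ, a) = ‖ξ - a‖⁻⁴`; with `a' = mob (R γ) a` hSUB (3), (10): this summand is
`k (ξ', a') ‖den (R γ) a‖⁻⁴`.  Integrate over `a ∈ G '' F`, exchange (Tonelli) and use the third item of
hIND.  (`den (R γ⁻¹) ξ' ≠ 0` for almost all `ξ'`: one exceptional point.)
Hypotheses: hSUB hFUX hIND hCVH. -/
def StSWP : Prop := ∀ (Γ : Type) [Group Γ] (s : Γ →* SL) (F : Set ℂ) (G : ℂ ≃ₜ ℂ) (R : Γ →* SL),
  Fu s → FD s F → (∀ γ, Intw (s γ) (R γ) G) →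
  ∫⁻ a in G '' F, ∫⁻ ξ in G '' Dx, ENNReal.ofReal (‖ξ - a‖⁻¹ ^ 4) =
    ∫⁻ ξ in G '' (rf '' (F \ {0})), ∫⁻ a in G '' D, ENNReal.ofReal (‖ξ - a‖⁻¹ ^ 4)

/-- EUP (about 150 lines)
(Upper bound of the energy by the area.)  `‖z‖ ≤ r < 1` on `F`.  `ξ = G z` with `‖z‖ ≥ 1/r` (if `r = 0` the set
is empty): hGRW (third clause, `t ↦ (t-1)²/t` is increasing for `t ≥ 1`): for `a = G w`, `‖w‖ ≤ 1`:
`4 ‖ξ - a‖ ≥ (1/r-1)² r =: 4 c0 > 0`.  hSWP and Tonelli: the energy is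
`∫⁻ a in G '' D, ∫⁻ ξ in E', ‖ξ-a‖⁻⁴ ≤ ∫⁻ a in G '' D, ∫⁻ ξ in {‖ξ - a‖ ≥ c0}, ‖ξ-a‖⁻⁴ = (π/c0²) volume (G '' D)`
(polar coordinates, or any finite bound: split into dyadic annuli).
Hypotheses: hGRW hSWP. -/
def StEUP : Prop := ∀ (Γ : Type) [Group Γ] (s : Γ →* SL) (F : Set ℂ), Fu s → FD s F →
  ∃ C : ℝ, 0 < C ∧ ∀ (G : ℂ ≃ₜ ℂ) (R : Γ →* SL), Gd 1 G → (∀ γ, Intw (s γ) (R γ) G) →
  ∫⁻ a in G '' F, ∫⁻ ξ in G '' Dx, ENNReal.ofReal (‖ξ - a‖⁻¹ ^ 4) ≤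
    ENNReal.ofReal C * volume (G '' D)

/-- STR (about 200 lines)
(Strictness.)  Let `t0` be real positive, `t0 = min (r/2) τ0` with `τ0` from hCTR.  Suppose no `c` works.
`C` from hEUP.  For each `n` apply the negation with `c n = 1/(4 C² (n+1))`: `k n < 1`, `κ n` with
`Kap s (k n) (κ n)` and `E0 - circleAverage < c n E0²`, `E0 = Et F (κ n) h 0 = (En F (κ n)).toReal` (`muT κ h 0 = κ`).
`G n, N n, R n, R' n` from hSQ1; then `Sq s F h t0 G N R R'`: all items are clear except `small`: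
by hSQ1, hTRF, hPE1 (`‖t0‖ ≤ r/2`) the integral is `≤ ofReal (4 (E0 - circleAverage)) ≤ ofReal (4 c n E0²)`, and
`E0 ≤ C vol` with `vol = (volume (G n '' D)).toReal` (hEUP, hSQ1; the volume is finite because
`G n '' D ⊆ closedBall 0 1`), so it is `≤ ofReal (vol²/(n+1))`.  hCTR: contradiction.
Hypotheses: hPE1 hTRF hSQ1 hEUP hCTR. -/
def StSTR : Prop := ∀ (Γ : Type) [Group Γ] (s : Γ →* SL) (F : Set ℂ) (h : ℂ → ℂ),
  Fu s → FD s F → Ab s h → ∀ r : ℝ, 0 < r → r < 1 → ∃ c : ℝ, 0 < c ∧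
  ∀ k < 1, ∀ κ : ℂ → ℂ, Kap s k κ →
    c * Et F κ h 0 ^ 2 ≤ Et F κ h 0 - Real.circleAverage (Et F κ h) 0 r

/-- FUC (about 150 lines)
(Dictionary.)  `Helper20.QD.mob`, `den`, `IsSU` are the same expressions.  `Fuch` implies `Fu` for torsion free
`Γ`: `disc`: `‖mob A 0‖² = ‖b‖²/‖a‖² = 1 - 1/‖a‖²` and `hs A = 2‖a‖² + 2‖b‖² = 4‖a‖² - 2`, so a bound of `‖mob A 0‖`
below `1` bounds `hs` (`IsDiscrete`); `free`: if `mob (s γ) z = z` with `z ∈ D` then all powers of `γ` fix `z`, and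
`‖mob (s γ^n) 0‖ ≤ (2‖z‖)/(1+‖z‖²) < 1`, so there are finitely many powers, `γ^n = 1` for some `n ≥ 1`.
Conversely `Fu` implies `Fuch` (same computation) and torsion freeness (`γ ≠ 1`, `γ^n = 1`, `n ≥ 1`: a finite
cyclic group of isometries has a fixed point in `D`; e.g. the matrix `s γ` has finite order,
`SU(1,1)`, so it is elliptic: it is diagonalisable with eigenvalues of modulus one, and if it is
not `±1` an eigenvector `(z,1)` has `‖z‖ ≠ 1`, so `z` or `rf z` is a fixed point in `D`; if `s γ = ±1` then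
`mob (s γ)` is the identity) .  `FD s F` implies `FDOn (ad s) (ball 0 1) F`.
Hypotheses: hSUB. -/
def StFUC : Prop := ∀ (Γ : Type) [Group Γ] (s : Γ →* SL),
  (Pool.Agent.Helper20.QD.Fuch s → (∀ (γ : Γ) (n : ℕ), 1 ≤ n → γ ^ n = 1 → γ = 1) → Fu s) ∧
  (Fu s → (Pool.Agent.Helper20.QD.Fuch s ∧
    ∀ (γ : Γ) (n : ℕ), 1 ≤ n → γ ^ n = 1 → γ = 1) ∧
  ∀ F : Set ℂ, FD s F → Pool.Agent.Helper86.QA.FDOn (Pool.Agent.Helper86.QA.ad s)
    (Metric.ball (0 : ℂ) 1) F)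

/-- YGR (about 200 lines)
(The Fuchsian group of the end `Y`.)  `e = nq (syY κ)` (hCOE: `Bel k`, symmetric, invariant; hEDD: preserves `D`).
A homomorphism `σ` with `Intw (s γ) (σ γ) e`: `StREP` along `τ ↦ τ • syY κ`, disc of centre `0` and radius `r' > 1`,
`k r' < 1`, `nq 0 = id` (as in hRPH; if `k < 0` impossible).  `σ γ ∈ SU(1,1)` (hEDD).  `Fu σ`: `mob (σ γ) (e z) = e (mob (s γ) z)`
for `z ∈ D`; `e 0 = 0`, so `mob (σ γ) 0 = e (mob (s γ) 0)`; `e` maps compact subsets of `D` to compact subsets of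
`D` and so does `e.symm`: `disc`, `coc`; `free` by injectivity.  `FD σ (e '' F)`: clear.
Hypotheses: hEX hUNI hREP hSYC hSUB hEDD hCOE. -/
def StYGR : Prop := ∀ (Γ : Type) [Group Γ] (s : Γ →* SL) (F : Set ℂ) (κ : ℂ → ℂ) (k : ℝ),
  Fu s → FD s F → k < 1 → Kap s k κ →
  ∃ σ : Γ →* SL, (∀ γ, Intw (s γ) (σ γ) (nq (syY κ))) ∧ Fu σ ∧ FD σ (nq (syY κ) '' F)

/-- BND (about 120 lines)
(Uniform bound.)  By hPE1 `En F (muT κ h t) ≤ ∫⁻ ζ in e '' F, ofReal (π/(1-‖ζ‖²)²)`, `e = nq (syY κ)`; this is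
`(π/4) ar2 (e '' F)` (`ar2` is the Bochner integral of `4/(1-‖z‖²)²`; `e '' F` is relatively compact in `D`, so
everything is finite), and `ar2 (e '' F) = ar2 F` by `StAIN` for `Fuch s`, `Fuch σ` (hYGR, hFUC).  So
`M = (π/4) ar2 F` works.  (The existence of some `h` is not needed; if you prefer: the bound holds for every `h`.)
Hypotheses: hAIN hPE1 hFUC hYGR. -/
def StBND : Prop := ∀ (Γ : Type) [Group Γ] (s : Γ →* SL) (F : Set ℂ) (h : ℂ → ℂ),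
  Fu s → FD s F → Ab s h → ∀ k < 1, ∀ κ : ℂ → ℂ, Kap s k κ → ∀ t ∈ D,
    Et F κ h t ≤ Real.pi / 4 * Pool.Agent.Helper86.QA.ar2 F

/-- EFI (about 150 lines)
(Independence of the fundamental domain.)  `G = nq μ`, `R` with `Intw (s γ) (R γ) G`.
`K a = ∫⁻ ξ in G '' Dx, ofReal (‖ξ - a‖⁻¹ ^ 4)` satisfies `K (mob (R γ) a) ‖den (R γ) a‖⁻⁴ = K a` for `a ∈ G '' D`
(change of variables `mob (R γ)` in `ξ`, which maps `G '' Dx` onto itself up to one point and `∞`; hSUB (3)).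
For two fundamental domains `F, F'`: `F` is the disjoint union of the sets `F ∩ mob (s γ⁻¹) '' F'`, and
`F'` of the `mob (s γ) '' F ∩ F'`; the change of variables of hIND (second item) identifies the
integrals of `K` over `G '' (F ∩ mob (s γ⁻¹) '' F')` and over `G '' (mob (s γ) '' F ∩ F')`.
Hypotheses: hSUB hFUX hIND hCVH. -/
def StEFI : Prop := ∀ (Γ : Type) [Group Γ] (s : Γ →* SL) (F F' : Set ℂ) (μ : ℂ → ℂ)
  (R : Γ →* SL), Fu s → FD s F → FD s F' → (∀ γ, Intw (s γ) (R γ) (nq μ)) → En F μ = En F' μ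

end Pool.Agent.Helper61.QE
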